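import Pool.Agent.H34.FInj.ExtColim

/-!
# Comparison with Mathlib's `localCohomology`
-/

set_option autoImplicit false

universe u

open CategoryTheory Abelian Limits Opposite

noncomputable section

namespace Pool.Agent.H34.FInj

variable {R : Type u} [CommRing R]

/-- `X ↦ Hom(X, Y)` as a functor to the opposite category. -/
abbrev FY (Y : ModuleCat.{u} R) : ModuleCat.{u} R ⥤ (ModuleCat.{u} R)ᵒᵖ :=
  ((linearYoneda R (ModuleCat.{u} R)).obj Y).rightOp

/-- `Hom(P, Y)` -/
abbrev cpx {X : ModuleCat.{u} R} (P : ProjectiveResolution X) (Y : ModuleCat.{u} R) :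
    ChainComplex (ModuleCat.{u} R)ᵒᵖ ℕ :=
  ((FY Y).mapHomologicalComplex _).obj P.complex

/-- the morphism attached to a cochain -/
def kap {X : ModuleCat.{u} R} (P : ProjectiveResolution X) (Y : ModuleCat.{u} R) {n : ℕ}
    (c : P.complex.X n ⟶ Y) : (cpx P Y).X n ⟶ op (ModuleCat.of R R) :=
  Quiver.Hom.op (V := ModuleCat.{u} R) (X := ModuleCat.of R R) (Y := ModuleCat.of R (P.complex.X n ⟶ Y))
    (ModuleCat.ofHom (LinearMap.toSpanSingleton R (P.complex.X n ⟶ Y) c))

theorem kap_surj {X : ModuleCat.{u} R} (P : ProjectiveResolution X) (Y : ModuleCat.{u} R) {n : ℕ}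
    (k : (cpx P Y).X n ⟶ op (ModuleCat.of R R)) : ∃ c, kap P Y c = k := by
  refine ⟨(k.unop.hom : R →ₗ[R] (P.complex.X n ⟶ Y)) 1, ?_⟩
  apply Quiver.Hom.unop_inj
  refine ModuleCat.hom_ext (LinearMap.ext fun x => ?_)
  change x • (k.unop.hom : R →ₗ[R] (P.complex.X n ⟶ Y)) 1 = (k.unop.hom : R →ₗ[R] (P.complex.X n ⟶ Y)) x
  rw [← map_smul, smul_eq_mul, mul_one]

theorem kap_inj {X : ModuleCat.{u} R} (P : ProjectiveResolution X) (Y : ModuleCat.{u} R) {n : ℕ}
    {c c' : P.complex.X n ⟶ Y} (h : kap P Y c = kap P Y c') : c = c' := by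
  have h1 := congrArg Quiver.Hom.unop h
  have h2 := LinearMap.congr_fun (congrArg ModuleCat.Hom.hom h1) (1 : R)
  change (1 : R) • c = (1 : R) • c' at h2
  simpa using h2

theorem d_kap {X : ModuleCat.{u} R} (P : ProjectiveResolution X) (Y : ModuleCat.{u} R) {m n : ℕ}
    (c : P.complex.X n ⟶ Y) : (cpx P Y).d m n ≫ kap P Y c = kap P Y (P.complex.d m n ≫ c) := by
  apply Quiver.Hom.unop_inj
  refine ModuleCat.hom_ext (LinearMap.ext fun x => ?_)
  change P.complex.d m n ≫ (x • c) = x • (P.complex.d m n ≫ c)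
  rw [Linear.comp_smul]

theorem kap_zero {X : ModuleCat.{u} R} (P : ProjectiveResolution X) (Y : ModuleCat.{u} R) {n : ℕ} :
    kap P Y (0 : P.complex.X n ⟶ Y) = 0 := by
  apply Quiver.Hom.unop_inj
  refine ModuleCat.hom_ext (LinearMap.ext fun x => ?_)
  change x • (0 : P.complex.X n ⟶ Y) = 0
  rw [smul_zero]

/-- the left derived functor is computed by the resolution -/
def isoH {X : ModuleCat.{u} R} (P : ProjectiveResolution X) (Y : ModuleCat.{u} R) (n : ℕ) :
    ((FY Y).leftDerived n).obj X ≅ (cpx P Y).homology n :=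
  P.isoLeftDerivedObj (FY Y) n

/-- the class of a cocycle, as a morphism -/
def cls {X : ModuleCat.{u} R} (P : ProjectiveResolution X) (Y : ModuleCat.{u} R) {n : ℕ}
    (c : P.complex.X n ⟶ Y) (hc : P.complex.d (n + 1) n ≫ c = 0) :
    ((FY Y).leftDerived n).obj X ⟶ op (ModuleCat.of R R) :=
  (isoH P Y n).hom ≫ (cpx P Y).homologyι n ≫
    (cpx P Y).descOpcycles (kap P Y c) (n + 1) (by simp) (by rw [d_kap, hc, kap_zero])

theorem cls_surj {X : ModuleCat.{u} R} (P : ProjectiveResolution X) (Y : ModuleCat.{u} R) {n : ℕ}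
    (h : ((FY Y).leftDerived n).obj X ⟶ op (ModuleCat.of R R)) :
    ∃ (c : P.complex.X n ⟶ Y) (hc : P.complex.d (n + 1) n ≫ c = 0), cls P Y c hc = h := by
  have inj : Injective (op (ModuleCat.of R R)) := inferInstance
  obtain ⟨k, hk⟩ := inj.factors ((isoH P Y n).inv ≫ h) ((cpx P Y).homologyι n)
  obtain ⟨c, hc⟩ := kap_surj P Y ((cpx P Y).pOpcycles n ≫ k)
  have hd : P.complex.d (n + 1) n ≫ c = 0 := by
    apply kap_inj P Y
    rw [← d_kap, hc, kap_zero, HomologicalComplex.d_pOpcycles_assoc, zero_comp]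
  refine ⟨c, hd, ?_⟩
  unfold cls
  have h1 : (cpx P Y).descOpcycles (kap P Y c) (n + 1) (by simp) (by rw [d_kap, hd, kap_zero]) = k := by
    rw [← cancel_epi ((cpx P Y).pOpcycles n), HomologicalComplex.p_descOpcycles, hc]
  rw [h1, hk, Iso.hom_inv_id_assoc]

theorem cls_eq_zero_iff {X : ModuleCat.{u} R} (P : ProjectiveResolution X) (Y : ModuleCat.{u} R) {n : ℕ}
    (c : P.complex.X (n + 1) ⟶ Y) (hc : P.complex.d (n + 1 + 1) (n + 1) ≫ c = 0) :
    cls P Y c hc = 0 ↔ ∃ g : P.complex.X n ⟶ Y, P.complex.d (n + 1) n ≫ g = c := by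
  constructor
  · intro h
    unfold cls at h
    rw [← cancel_epi (isoH P Y (n + 1)).inv, Iso.inv_hom_id_assoc, comp_zero] at h
    have hex : (ShortComplex.mk ((cpx P Y).homologyι (n + 1)) ((cpx P Y).fromOpcycles (n + 1) n)
        (HomologicalComplex.homologyι_comp_fromOpcycles _ _ _)).Exact :=
      ShortComplex.exact_of_f_is_kernel _ ((cpx P Y).homologyIsKernel (n + 1) n (by simp))
    obtain ⟨g, hg⟩ := kap_surj P Y (hex.descToInjective _ h)
    refine ⟨g, kap_inj P Y ?_⟩
    rw [← d_kap, hg]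
    have h2 := hex.comp_descToInjective _ h
    dsimp only at h2
    rw [← HomologicalComplex.p_fromOpcycles, Category.assoc, h2, HomologicalComplex.p_descOpcycles]
  · rintro ⟨g, rfl⟩
    unfold cls
    rw [HomologicalComplex.homologyι_descOpcycles_eq_zero_of_boundary _ _ _ _ (kap P Y g)
      (d_kap P Y g).symm, comp_zero]

theorem cls_zero_eq_zero_iff {X : ModuleCat.{u} R} (P : ProjectiveResolution X) (Y : ModuleCat.{u} R)
    (c : P.complex.X 0 ⟶ Y) (hc : P.complex.d (0 + 1) 0 ≫ c = 0) :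
    cls P Y c hc = 0 ↔ c = 0 := by
  constructor
  · intro h
    unfold cls at h
    rw [← cancel_epi (isoH P Y 0).inv, Iso.inv_hom_id_assoc, comp_zero] at h
    have h1 : IsIso ((cpx P Y).homologyι 0) := inferInstance
    rw [← cancel_epi (inv ((cpx P Y).homologyι 0)), IsIso.inv_hom_id_assoc, comp_zero] at h
    apply kap_inj P Y
    rw [kap_zero, ← HomologicalComplex.p_descOpcycles (cpx P Y) (kap P Y c) (0 + 1) (by simp)
      (by rw [d_kap, hc, kap_zero]), h, comp_zero]
  · rintro rfl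
    unfold cls
    have : (cpx P Y).descOpcycles (kap P Y (0 : P.complex.X 0 ⟶ Y)) (0 + 1) (by simp)
        (by rw [d_kap, hc, kap_zero]) = 0 := by
      rw [← cancel_epi ((cpx P Y).pOpcycles 0), HomologicalComplex.p_descOpcycles, kap_zero, comp_zero]
    rw [this, comp_zero, comp_zero]

theorem cls_pre {X X' : ModuleCat.{u} R} (g : X' ⟶ X) (P : ProjectiveResolution X)
    (P' : ProjectiveResolution X') (φ : P'.complex ⟶ P.complex)
    (comm : φ.f 0 ≫ P.π.f 0 = P'.π.f 0 ≫ g) (Y : ModuleCat.{u} R) {n : ℕ}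
    (c : P.complex.X n ⟶ Y) (hc : P.complex.d (n + 1) n ≫ c = 0) :
    ((FY Y).leftDerived n).map g ≫ cls P Y c hc =
      cls P' Y (φ.f n ≫ c) (by rw [← φ.comm_assoc, hc, comp_zero]) := by
  have h := ProjectiveResolution.isoLeftDerivedObj_hom_naturality g P' P φ comm (FY Y) n
  have h' : ((FY Y).leftDerived n).map g ≫ (isoH P Y n).hom = (isoH P' Y n).hom ≫
    HomologicalComplex.homologyMap (((FY Y).mapHomologicalComplex _).map φ) n := h
  unfold cls
  rw [reassoc_of% h', HomologicalComplex.homologyι_naturality_assoc,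
    HomologicalComplex.opcyclesMap_comp_descOpcycles]
  have h2 : (((FY Y).mapHomologicalComplex (ComplexShape.down ℕ)).map φ).f n ≫ kap P Y c =
      kap P' Y (φ.f n ≫ c) := by
    apply Quiver.Hom.unop_inj
    refine ModuleCat.hom_ext (LinearMap.ext fun x => ?_)
    change φ.f n ≫ (x • c) = x • (φ.f n ≫ c)
    rw [Linear.comp_smul]
  congr 2

/-- the natural transformation induced by a map in the second variable -/
abbrev al {Y Y' : ModuleCat.{u} R} (f : Y ⟶ Y') : FY Y' ⟶ FY Y :=
  NatTrans.rightOp ((linearYoneda R (ModuleCat.{u} R)).map f)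

theorem cls_post {X : ModuleCat.{u} R} (P : ProjectiveResolution X) {Y Y' : ModuleCat.{u} R}
    (f : Y ⟶ Y') {n : ℕ} (c : P.complex.X n ⟶ Y) (hc : P.complex.d (n + 1) n ≫ c = 0) :
    (NatTrans.leftDerived (al f) n).app X ≫ cls P Y c hc =
      cls P Y' (c ≫ f) (by rw [← Category.assoc, hc, zero_comp]) := by
  have h := ProjectiveResolution.leftDerived_app_eq (al f) P n
  have h' : (NatTrans.leftDerived (al f) n).app X ≫ (isoH P Y n).hom = (isoH P Y' n).hom ≫
      HomologicalComplex.homologyMap ((NatTrans.mapHomologicalComplex (al f) _).app P.complex) n := by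
    rw [← Iso.eq_comp_inv, Category.assoc]
    exact h
  unfold cls
  rw [reassoc_of% h', HomologicalComplex.homologyι_naturality_assoc,
    HomologicalComplex.opcyclesMap_comp_descOpcycles]
  have h2 : ((NatTrans.mapHomologicalComplex (al f) (ComplexShape.down ℕ)).app P.complex).f n ≫ kap P Y c =
      kap P Y' (c ≫ f) := by
    apply Quiver.Hom.unop_inj
    refine ModuleCat.hom_ext (LinearMap.ext fun x => ?_)
    change (x • c) ≫ f = x • (c ≫ f)
    rw [Linear.smul_comp]
  congr 2
  refine (cancel_epi ((cpx P Y').pOpcycles n)).1 ?_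
  refine (HomologicalComplex.p_descOpcycles _ _ _ _ _).trans ?_
  rw [HomologicalComplex.p_descOpcycles]
  exact h2

/-- elements as morphisms to `op R` -/
def el {X : (ModuleCat.{u} R)ᵒᵖ} (e : X.unop) : X ⟶ op (ModuleCat.of R R) :=
  Quiver.Hom.op (V := ModuleCat.{u} R) (X := ModuleCat.of R R) (Y := X.unop)
    (ModuleCat.ofHom (LinearMap.toSpanSingleton R X.unop e))

theorem el_eq_zero_iff {X : (ModuleCat.{u} R)ᵒᵖ} (e : X.unop) : el e = 0 ↔ e = 0 := by
  constructor
  · intro h
    have h1 := congrArg Quiver.Hom.unop h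
    have h2 := LinearMap.congr_fun (congrArg ModuleCat.Hom.hom h1) (1 : R)
    change (1 : R) • e = 0 at h2
    simpa using h2
  · rintro rfl
    apply Quiver.Hom.unop_inj
    refine ModuleCat.hom_ext (LinearMap.ext fun x => ?_)
    change x • (0 : X.unop) = 0
    rw [smul_zero]

theorem el_unop {X X' : (ModuleCat.{u} R)ᵒᵖ} (θ : X' ⟶ X) (e : X.unop) :
    el (θ.unop.hom e) = θ ≫ el e := by
  apply Quiver.Hom.unop_inj
  refine ModuleCat.hom_ext (LinearMap.ext fun x => ?_)
  change x • θ.unop.hom e = θ.unop.hom (x • e)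
  rw [map_smul]

/-- the lift of a morphism to resolutions -/
def lft {X X' : ModuleCat.{u} R} (g : X' ⟶ X) (P' : ProjectiveResolution X')
    (P : ProjectiveResolution X) : ProjectiveResolution.Hom P' P g where
  hom := ProjectiveResolution.lift g P' P
  hom_f_zero_comp_π_f_zero := by
    rw [ProjectiveResolution.lift_commutes_zero]
    simp

theorem mk_pre_eq_zero_iff {X X' : ModuleCat.{u} R} (g : X' ⟶ X) (P : ProjectiveResolution X)
    (P' : ProjectiveResolution X') (Y : ModuleCat.{u} R) {n : ℕ}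
    (c : P.complex.X (n + 1) ⟶ Y) (hc : P.complex.d (n + 1 + 1) (n + 1) ≫ c = 0) :
    (Ext.mk₀ g).comp (P.extMk c (n + 1 + 1) rfl hc) (zero_add _) = 0 ↔
      ((FY Y).leftDerived (n + 1)).map g ≫ cls P Y c hc = 0 := by
  rw [cls_pre g P P' (lft g P' P).hom (by rw [lft, ProjectiveResolution.lift_commutes_zero]),
    cls_eq_zero_iff, ProjectiveResolution.mk₀_comp_extMk c _ rfl hc (lft g P' P),
    ProjectiveResolution.extMk_eq_zero_iff _ _ _ _ _ n rfl]

/-- The comparison with Mathlib's local cohomology functor. -/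
theorem localCohomology_map_injective {m : Ideal R} {i : ℕ} {M M' : ModuleCat.{u} R} (f : M ⟶ M')
    (hf : Function.Injective f.hom) (h : Inj m i f) :
    Function.Injective ((localCohomology m i).map f).hom := by
  let G : ℕᵒᵖᵒᵖ ⥤ ModuleCat.{u} R ⥤ ModuleCat.{u} R :=
    localCohomology.diagram (localCohomology.idealPowersDiagram m) i
  let ev (Z : ModuleCat.{u} R) := (evaluation (ModuleCat.{u} R) (ModuleCat.{u} R)).obj Z
  let hc (Z : ModuleCat.{u} R) : IsColimit ((ev Z).mapCocone (colimit.cocone G)) :=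
    isColimitOfPreserves (ev Z) (colimit.isColimit G)
  have hp : PreservesFilteredColimitsOfSize.{0, 0} (forget (ModuleCat.{u} R)) :=
    preservesSmallestFilteredColimits_of_preservesFilteredColimits _
  rw [injective_iff_map_eq_zero]
  intro x hx
  obtain ⟨j, a, ha⟩ := Concrete.isColimit_exists_rep (G ⋙ ev M) (hc M) x
  have h1 : ((ev M').mapCocone (colimit.cocone G)).ι.app j (((G.obj j).map f).hom a) =
      ((ev M').mapCocone (colimit.cocone G)).ι.app j (0 : (G.obj j).obj M') := by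
    have h2 := congrArg (fun θ => θ.hom a) (((colimit.cocone G).ι.app j).naturality f)
    refine Eq.trans h2 ?_
    rw [map_zero]
    change ((localCohomology m i).map f).hom (((ev M).mapCocone (colimit.cocone G)).ι.app j a) = 0
    rw [ha, hx]
  obtain ⟨k, g₁, g₂, hk⟩ := (Concrete.isColimit_rep_eq_iff_exists (G ⋙ ev M') (hc M') _ _).1 h1
  rw [map_zero] at hk
  -- translate
  let n : ℕ := j.unop.unop
  let N : ℕ := k.unop.unop
  have hnN : n ≤ N := g₁.unop.unop.down.down
  let P := projectiveResolution (Q m n)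
  let P' := projectiveResolution (Q m N)
  obtain ⟨b, hb⟩ : ∃ b : (((FY M).leftDerived i).obj (Q m n)).unop, b = a := ⟨a, rfl⟩
  have hk' : ((FY M').leftDerived i).map (proj m hnN) ≫
      (NatTrans.leftDerived (al f) i).app (Q m n) ≫ el b = 0 := by
    rw [← el_unop, ← el_unop, el_eq_zero_iff, hb]
    exact hk
  obtain ⟨c, hc', hcls⟩ := cls_surj P M (el b)
  rw [← hcls, cls_post] at hk'
  -- it suffices to find a level at which `a` dies
  have suff : (∃ (N : ℕ) (hN : n ≤ N), ((FY M).leftDerived i).map (proj m hN) ≫ cls P M c hc' = 0) →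
      x = 0 := by
    rintro ⟨N, hN, h0⟩
    rw [hcls, ← el_unop, el_eq_zero_iff, hb] at h0
    rw [← ha]
    have h5 : ((ev M).mapCocone (colimit.cocone G)).ι.app j a =
        ((ev M).mapCocone (colimit.cocone G)).ι.app j (0 : (G.obj j).obj M) := by
      refine (Concrete.isColimit_rep_eq_iff_exists (G ⋙ ev M) (hc M) _ _).2
        ⟨op (op N), (homOfLE hN).op.op, (homOfLE hN).op.op, ?_⟩
      rw [map_zero]
      exact h0
    rw [map_zero] at h5
    exact h5
  apply suff
  rcases i with _ | i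
  · refine ⟨N, hnN, ?_⟩
    rw [cls_pre (proj m hnN) P P' (lft (proj m hnN) P' P).hom
      (by rw [lft, ProjectiveResolution.lift_commutes_zero]), cls_zero_eq_zero_iff] at hk' ⊢
    have : Mono f := (ModuleCat.mono_iff_injective _).2 hf
    rw [← cancel_mono f, Category.assoc, hk', zero_comp]
  · rw [← mk_pre_eq_zero_iff (proj m hnN) P P'] at hk'
    have h3 : EvZ ((P.extMk c (i + 1 + 1) rfl hc').comp (Ext.mk₀ f) (add_zero _)) := by
      refine ⟨N, hnN, ?_⟩
      rw [ProjectiveResolution.extMk_comp_mk₀]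
      exact hk'
    obtain ⟨N', hN', h4⟩ := h _ _ h3
    refine ⟨N', hN', ?_⟩
    rw [mk_pre_eq_zero_iff (proj m hN') P (projectiveResolution (Q m N'))] at h4
    exact h4

end Pool.Agent.H34.FInj
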