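import Mathlib

/-!
# F-injective local rings, Frobenius closure, parameter ideals
-/

set_option autoImplicit false

universe u

noncomputable section

namespace Pool.Agent.H34.FInj

/-- `F_* M`: the additive group `M`, on which `r : R` acts as multiplication by `r ^ p`
(see the instance below). -/
def FStar (_p : ℕ) (M : Type u) : Type u := M

instance (p : ℕ) (M : Type u) [h : AddCommGroup M] : AddCommGroup (FStar p M) := h

variable {R : Type u} [CommRing R] (p : ℕ) [ExpChar R p]

/-- The `R`-module structure of `F_* M`: restriction of scalars along the Frobenius `r ↦ r ^ p`. -/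
instance (M : Type u) [AddCommGroup M] [Module R M] : Module R (FStar p M) :=
  Module.compHom M (frobenius R p)

/-- The Frobenius `R → F_* R`, `x ↦ x ^ p`, which is an `R`-linear map. -/
def frobR : R →ₗ[R] FStar p R where
  toFun x := frobenius R p x
  map_add' x y := (frobenius R p).map_add x y
  map_smul' r x := by
    change (r * x) ^ p = r ^ p * x ^ p
    exact mul_pow r x p

variable (R) in
/-- A local ring `(R, 𝔪)` of characteristic `p` is *F-injective* if for every `i` the Frobenius
`R → F_* R` induces an injective map `H^i_𝔪(R) → H^i_𝔪(F_* R)` on local cohomology (Mathlib's functor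
`localCohomology`, the colimit of `Ext^i(R / 𝔪^t, -)`).  Under the usual identification of
`H^i_𝔪(F_* R)` with the additive group `H^i_𝔪(R)`, this map is the Frobenius action on `H^i_𝔪(R)`. -/
def IsFInjective [IsLocalRing R] : Prop :=
  ∀ i : ℕ, Function.Injective
    ((localCohomology (IsLocalRing.maximalIdeal R) i).map (ModuleCat.ofHom (frobR (R := R) p))).hom

omit [ExpChar R p] in
/-- The Frobenius closure of the ideal `I`: all `x` with `x ^ (p ^ e)` in the ideal `I^[p ^ e]`
generated by the `p ^ e`-th powers of the elements of `I`, for some `e ≥ 0`. -/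
def frobeniusClosure (I : Ideal R) : Set R :=
  {x | ∃ e : ℕ, x ^ p ^ e ∈ Ideal.span ((fun y => y ^ p ^ e) '' (I : Set R))}

/-- A parameter ideal of a local ring `R`: an ideal generated by `d = dim R` elements whose radical
is the maximal ideal. -/
def IsParameterIdeal [IsLocalRing R] (q : Ideal R) : Prop :=
  ∃ (d : ℕ) (x : Fin d → R), ringKrullDim R = d ∧ q = Ideal.span (Set.range x) ∧
    q.radical = IsLocalRing.maximalIdeal R

variable (R) in
/-- `R` is equidimensional: `dim R / P = dim R` for all minimal primes `P`. -/
def IsEquidimensional : Prop := ∀ P ∈ minimalPrimes R, ringKrullDim (R ⧸ P) = ringKrullDim R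

end Pool.Agent.H34.FInj
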