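import Pool.Agent.H34.FInj.FFin

/-!
# Dimension, minimal primes, completeness
-/

set_option autoImplicit false

open MvPowerSeries RingTheory.Sequence CategoryTheory IsLocalRing

noncomputable section

namespace Pool.Agent.H34.FInj

variable (k : Type) [Field k]

instance : IsDomain (S4 k) := NoZeroDivisors.to_isDomain _

theorem dim_S : ringKrullDim (S4 k) = 4 := by
  have hreg : IsRegular (S4 k) [vx k, vy k, vz k, vw k] :=
    RingTheory.Sequence.IsRegular.of_isWeaklyRegular_of_mem_maximalIdeal (S4 k)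
      (fun r hr => (mem_max k).2 (cc1 k r hr)) (weakly1 k)
  have h := ringKrullDim_add_length_eq_ringKrullDim_of_isRegular _ hreg
  rw [← max_eq, ringKrullDim_eq_zero_of_isField
    ((Ideal.Quotient.maximal_ideal_iff_isField_quotient _).1 (maximalIdeal.isMaximal (S4 k)))] at h
  rw [← h]
  rfl

/-- the first minimal prime -/
def P1 : Ideal (GR k) := RingHom.ker (pr1 k)
/-- the second minimal prime -/
def P2 : Ideal (GR k) := RingHom.ker (pr2 k)

instance : (P1 k).IsPrime := RingHom.ker_isPrime _
instance : (P2 k).IsPrime := RingHom.ker_isPrime _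

theorem minimal_eq {P : Ideal (GR k)} (hP : P ∈ minimalPrimes (GR k)) : P = P1 k ∨ P = P2 k := by
  have hPp : P.IsPrime := hP.1.1
  have h : P1 k ≤ P ∨ P2 k ≤ P := by
    rw [← hPp.mul_le]
    refine Ideal.mul_le_inf.trans ?_
    rintro r ⟨h1, h2⟩
    have : r = 0 := GR_ext k h1 h2
    rw [this]
    exact P.zero_mem
  rcases h with h | h
  · left
    exact le_antisymm (hP.2 ⟨inferInstance, bot_le⟩ h) h
  · right
    exact le_antisymm (hP.2 ⟨inferInstance, bot_le⟩ h) h

theorem dim_P1 : ringKrullDim (GR k ⧸ P1 k) = 4 := by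
  rw [← dim_S k]
  exact ringKrullDim_eq_of_ringEquiv (RingHom.quotientKerEquivOfSurjective (pr1_surj k))

theorem dim_P2 : ringKrullDim (GR k ⧸ P2 k) = 4 := by
  rw [← dim_S k]
  exact ringKrullDim_eq_of_ringEquiv (RingHom.quotientKerEquivOfSurjective (pr2_surj k))

theorem max_mem_minimalPrimes : maximalIdeal (GR k) ∈ (qq k).minimalPrimes := by
  refine ⟨⟨inferInstance, qq_le_max⟩, ?_⟩
  rintro Q ⟨hQ, hQq⟩ _
  rw [← radical_qq]
  exact hQ.radical_le_iff.2 hQq

theorem dim_GR : ringKrullDim (GR k) = 4 := by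
  apply le_antisymm
  · rw [← IsLocalRing.maximalIdeal_height_eq_ringKrullDim]
    have h := Ideal.height_le_card_of_mem_minimalPrimes_span (Set.finite_range (gR k))
      (max_mem_minimalPrimes k)
    have h2 : (Set.range (gR k)).ncard ≤ 4 := by
      have := Set.ncard_image_le (f := gR k) (s := Set.univ) (Set.toFinite _)
      rw [Set.image_univ, Set.ncard_univ, Nat.card_eq_fintype_card, Fintype.card_fin] at this
      exact this
    have h3 : (maximalIdeal (GR k)).height ≤ 4 := h.trans (by exact_mod_cast h2)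
    exact WithBot.coe_le_coe.2 h3
  · rw [← dim_P1 k]
    exact ringKrullDim_quotient_le _

section complete

open AdicCompletion TensorProduct

theorem precomplete_of_finite {A M : Type} [CommRing A] (I : Ideal A) [IsPrecomplete I A]
    [AddCommGroup M] [Module A M] [Module.Finite A M] : IsPrecomplete I M := by
  rw [← AdicCompletion.of_surjective_iff]
  intro y
  obtain ⟨t, rfl⟩ := ofTensorProduct_surjective_of_finite I M y
  have key : ∀ t : AdicCompletion I A ⊗[A] M, ∃ x : M, t = 1 ⊗ₜ x := by
    intro t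
    induction t using TensorProduct.induction_on with
    | zero => exact ⟨0, by simp⟩
    | tmul r x =>
      obtain ⟨a, rfl⟩ := AdicCompletion.of_surjective I A r
      refine ⟨a • x, ?_⟩
      rw [TensorProduct.tmul_smul, TensorProduct.smul_tmul']
      congr 1
      have : (1 : AdicCompletion I A) = AdicCompletion.of I A 1 := rfl
      rw [this, ← map_smul, smul_eq_mul, mul_one]
    | add s t hs ht =>
      obtain ⟨x, rfl⟩ := hs
      obtain ⟨y, rfl⟩ := ht
      exact ⟨x + y, by rw [TensorProduct.tmul_add]⟩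
  obtain ⟨x, rfl⟩ := key t
  refine ⟨x, ?_⟩
  rw [ofTensorProduct_tmul, one_smul]

theorem precomplete_S : IsPrecomplete (maximalIdeal (S4 k)) (S4 k) := by
  have h : maximalIdeal (S4 k) = Ideal.span (Set.range (X : Fin 4 → S4 k)) := by
    rw [max_eq]
    refine congrArg Ideal.span (Set.ext fun r => ?_)
    simp only [Set.mem_ofPred_eq, List.mem_cons, List.not_mem_nil, or_false, Set.mem_range,
      Fin.exists_fin_succ, IsEmpty.exists_iff]
    constructor
    · rintro (rfl | rfl | rfl | rfl)
      · exact Or.inl rfl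
      · exact Or.inr (Or.inl rfl)
      · exact Or.inr (Or.inr (Or.inl rfl))
      · exact Or.inr (Or.inr (Or.inr rfl))
    · rintro (rfl | rfl | rfl | rfl)
      · exact Or.inl rfl
      · exact Or.inr (Or.inl rfl)
      · exact Or.inr (Or.inr (Or.inl rfl))
      · exact Or.inr (Or.inr (Or.inr rfl))
  rw [h]
  infer_instance

theorem precomplete_GR : IsPrecomplete (maximalIdeal (GR k)) (GR k) := by
  have := precomplete_S k
  have h1 : IsPrecomplete (maximalIdeal (S4 k)) (GR k) := precomplete_of_finite _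
  rw [← IsPrecomplete.map_algebraMap_iff (S := GR k)] at h1
  set J : Ideal (GR k) := (maximalIdeal (S4 k)).map (algebraMap (S4 k) (GR k)) with hJ
  have hJm : J ≤ maximalIdeal (GR k) := by
    rw [hJ, Ideal.map_le_iff_le_comap]
    intro f hf
    rw [Ideal.mem_comap, mem_maxR]
    rwa [mem_max] at hf
  have hqJ : qq k ≤ J := by
    rw [qq, Ideal.span_le]
    rintro _ ⟨i, rfl⟩
    refine Ideal.mem_map_of_mem (algebraMap (S4 k) (GR k)) ?_
    rw [mem_max]
    fin_cases i <;> simp [gs]
  have hrad : maximalIdeal (GR k) ≤ J.radical := by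
    rw [← radical_qq]
    exact Ideal.radical_mono hqJ
  obtain ⟨N, hN⟩ := Ideal.exists_pow_le_of_le_radical_of_fg hrad (IsNoetherian.noetherian _)
  refine ⟨fun f hf => ?_⟩
  have key : ∀ a b : GR k, ∀ (I : Ideal (GR k)) (n : ℕ),
      a ≡ b [SMOD (I ^ n • ⊤ : Submodule (GR k) (GR k))] ↔ a - b ∈ I ^ n := by
    intro a b I n
    rw [SModEq.sub_mem, smul_eq_mul, Ideal.mul_top]
  obtain ⟨L, hL⟩ := h1.prec' (fun n => f ((N + 1) * n)) (by
    intro m n hmn
    rw [key]
    have h2 := (key _ _ _ _).1 (hf (Nat.mul_le_mul_left (N + 1) hmn))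
    have h3 : maximalIdeal (GR k) ^ ((N + 1) * m) ≤ J ^ m := by
      rw [pow_mul]
      refine Ideal.pow_right_mono ?_ m
      exact (Ideal.pow_le_pow_right (Nat.le_succ N)).trans hN
    exact h3 h2)
  refine ⟨L, fun n => ?_⟩
  rw [key]
  have h4 := (key _ _ _ _).1 (hf (show n ≤ (N + 1) * n by nlinarith))
  have h5 := Ideal.pow_right_mono hJm n ((key _ _ _ _).1 (hL n))
  have h6 : f n - L = (f n - f ((N + 1) * n)) + (f ((N + 1) * n) - L) := by ring
  rw [h6]
  exact Ideal.add_mem _ h4 h5

theorem complete_GR : IsAdicComplete (maximalIdeal (GR k)) (GR k) := by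
  have := precomplete_GR k
  have h2 : IsHausdorff (maximalIdeal (GR k)) (GR k) := inferInstance
  exact { h2, this with }

end complete

end Pool.Agent.H34.FInj
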