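import Mathlib

/-!
# Local cohomology via `colim Ext(R/m^n, -)`: elementwise tools

We work with classes `ξ ∈ Ext^i(R/m^n, M)` up to the relation of becoming equal after pulling back to
`R/m^N` for large `N`.
-/

set_option autoImplicit false

universe u

open CategoryTheory Abelian

noncomputable section

namespace Pool.Agent.H34.FInj

variable {R : Type u} [CommRing R] (m : Ideal R)

/-- The module `R/m^n`. -/
abbrev Q (n : ℕ) : ModuleCat.{u} R := ModuleCat.of R (R ⧸ m ^ n)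

/-- The projection `R/m^b → R/m^a` for `a ≤ b`. -/
def proj {a b : ℕ} (h : a ≤ b) : Q m b ⟶ Q m a :=
  ModuleCat.ofHom (Submodule.mapQ (m ^ b) (m ^ a) LinearMap.id (Ideal.pow_le_pow_right h))

theorem proj_refl (a : ℕ) : proj m (le_refl a) = 𝟙 _ := by
  ext
  rfl

theorem proj_comp {a b c : ℕ} (h : a ≤ b) (h' : b ≤ c) :
    proj m h' ≫ proj m h = proj m (h.trans h') := by
  ext
  rfl

variable {m}

/-- `ξ ∈ Ext^i(R/m^n, M)` vanishes in the colimit. -/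
def EvZ {M : ModuleCat.{u} R} {i n : ℕ} (ξ : Ext (Q m n) M i) : Prop :=
  ∃ (N : ℕ) (h : n ≤ N), (Ext.mk₀ (proj m h)).comp ξ (zero_add i) = 0

section basic

variable {M M' : ModuleCat.{u} R} {i n : ℕ}

theorem evz_zero : EvZ (0 : Ext (Q m n) M i) := ⟨n, le_rfl, by simp⟩

theorem EvZ.mono {ξ : Ext (Q m n) M i} {N N' : ℕ} (h : n ≤ N) (h' : N ≤ N')
    (hξ : (Ext.mk₀ (proj m h)).comp ξ (zero_add i) = 0) :
    (Ext.mk₀ (proj m (h.trans h'))).comp ξ (zero_add i) = 0 := by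
  rw [← proj_comp m h h', ← Ext.mk₀_comp_mk₀, Ext.comp_assoc_of_second_deg_zero, hξ]
  simp

theorem EvZ.comp {ξ : Ext (Q m n) M i} (hξ : EvZ ξ) {j k : ℕ} (β : Ext M M' j) (h : i + j = k) :
    EvZ (ξ.comp β h) := by
  obtain ⟨N, hN, h0⟩ := hξ
  refine ⟨N, hN, ?_⟩
  rw [← Ext.comp_assoc (Ext.mk₀ (proj m hN)) ξ β (zero_add i) h (by omega), h0]
  simp

theorem evz_pre_iff {ξ : Ext (Q m n) M i} {n' : ℕ} (h : n ≤ n') :
    EvZ ((Ext.mk₀ (proj m h)).comp ξ (zero_add i)) ↔ EvZ ξ := by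
  constructor
  · rintro ⟨N, hN, h0⟩
    refine ⟨N, h.trans hN, ?_⟩
    rw [← proj_comp m h hN, ← Ext.mk₀_comp_mk₀, Ext.comp_assoc_of_second_deg_zero]
    exact h0
  · rintro ⟨N, hN, h0⟩
    refine ⟨max N n', le_max_right _ _, ?_⟩
    rw [← Ext.comp_assoc_of_second_deg_zero, Ext.mk₀_comp_mk₀, proj_comp]
    exact EvZ.mono hN (le_max_left _ _) h0

theorem EvZ.add {ξ η : Ext (Q m n) M i} (hξ : EvZ ξ) (hη : EvZ η) : EvZ (ξ + η) := by
  obtain ⟨N, hN, h0⟩ := hξ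
  obtain ⟨N', hN', h0'⟩ := hη
  refine ⟨max N N', hN.trans (le_max_left _ _), ?_⟩
  rw [Ext.comp_add, EvZ.mono hN (le_max_left _ _) h0, EvZ.mono hN' (le_max_right _ _) h0']
  simp

end basic

variable (m)

/-- `H^i_m(M) = 0`. -/
def Van (i : ℕ) (M : ModuleCat.{u} R) : Prop := ∀ (n : ℕ) (ξ : Ext (Q m n) M i), EvZ ξ

/-- `H^i_m(f)` is injective. -/
def Inj (i : ℕ) {M M' : ModuleCat.{u} R} (f : M ⟶ M') : Prop :=
  ∀ (n : ℕ) (ξ : Ext (Q m n) M i), EvZ (ξ.comp (Ext.mk₀ f) (add_zero i)) → EvZ ξ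

variable {m}

theorem Van.inj {i : ℕ} {M M' : ModuleCat.{u} R} (h : Van m i M) (f : M ⟶ M') : Inj m i f :=
  fun n ξ _ => h n ξ

theorem Inj.of_comp {i : ℕ} {M M' M'' : ModuleCat.{u} R} {f : M ⟶ M'} {g : M' ⟶ M''}
    (h : Inj m i (f ≫ g)) : Inj m i f := by
  intro n ξ hξ
  apply h n ξ
  rw [← Ext.mk₀_comp_mk₀, ← Ext.comp_assoc_of_third_deg_zero]
  exact hξ.comp _ _

theorem Inj.comp {i : ℕ} {M M' M'' : ModuleCat.{u} R} {f : M ⟶ M'} {g : M' ⟶ M''}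
    (hf : Inj m i f) (hg : Inj m i g) : Inj m i (f ≫ g) := by
  intro n ξ hξ
  apply hf n ξ
  apply hg
  rw [Ext.comp_assoc_of_third_deg_zero, Ext.mk₀_comp_mk₀]
  exact hξ

theorem inj_zero_of_mono {M M' : ModuleCat.{u} R} (f : M ⟶ M') [Mono f] : Inj m 0 f := by
  rintro n ξ ⟨N, hN, h0⟩
  refine ⟨N, hN, ?_⟩
  rw [← Ext.comp_assoc_of_third_deg_zero] at h0
  have hinj := Ext.postcomp_mk₀_injective_of_mono (Q m N) f
  apply hinj
  change ((Ext.mk₀ (proj m hN)).comp ξ (zero_add 0)).comp (Ext.mk₀ f) (add_zero 0) = (0 : Ext _ _ 0).comp (Ext.mk₀ f) (add_zero 0)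
  rw [h0]
  simp

section LES

variable {S : ShortComplex (ModuleCat.{u} R)} (hS : S.ShortExact)

include hS

/-- exactness at `H^i(M')`, `i ≥ 1` -/
theorem exact₁ {i j n : ℕ} (hij : j + 1 = i) (ξ : Ext (Q m n) S.X₁ i)
    (h : EvZ (ξ.comp (Ext.mk₀ S.f) (add_zero i))) :
    ∃ (N : ℕ) (hN : n ≤ N) (η : Ext (Q m N) S.X₃ j),
      η.comp hS.extClass hij = (Ext.mk₀ (proj m hN)).comp ξ (zero_add i) := by
  obtain ⟨N, hN, h0⟩ := h
  rw [← Ext.comp_assoc_of_third_deg_zero] at h0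
  obtain ⟨η, hη⟩ := Ext.covariant_sequence_exact₁ (Q m N) hS _ h0 hij
  exact ⟨N, hN, η, hη⟩

/-- exactness at `H^i(M)` -/
theorem exact₂ {i n : ℕ} (ξ : Ext (Q m n) S.X₂ i)
    (h : EvZ (ξ.comp (Ext.mk₀ S.g) (add_zero i))) :
    ∃ (N : ℕ) (hN : n ≤ N) (η : Ext (Q m N) S.X₁ i),
      η.comp (Ext.mk₀ S.f) (add_zero i) = (Ext.mk₀ (proj m hN)).comp ξ (zero_add i) := by
  obtain ⟨N, hN, h0⟩ := h
  rw [← Ext.comp_assoc_of_third_deg_zero] at h0
  obtain ⟨η, hη⟩ := Ext.covariant_sequence_exact₂ (Q m N) hS _ h0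
  exact ⟨N, hN, η, hη⟩

/-- exactness at `H^j(M'')` -/
theorem exact₃ {i j n : ℕ} (hij : j + 1 = i) (ξ : Ext (Q m n) S.X₃ j)
    (h : EvZ (ξ.comp hS.extClass hij)) :
    ∃ (N : ℕ) (hN : n ≤ N) (η : Ext (Q m N) S.X₂ j),
      η.comp (Ext.mk₀ S.g) (add_zero j) = (Ext.mk₀ (proj m hN)).comp ξ (zero_add j) := by
  obtain ⟨N, hN, h0⟩ := h
  rw [← Ext.comp_assoc (Ext.mk₀ (proj m hN)) ξ hS.extClass (zero_add j) hij (by omega)] at h0
  obtain ⟨η, hη⟩ := Ext.covariant_sequence_exact₃ (Q m N) hS _ hij h0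
  exact ⟨N, hN, η, hη⟩

/-- vanishing for the kernel -/
theorem van₁ {i j : ℕ} (hij : j + 1 = i) (h2 : Van m i S.X₂) (h3 : Van m j S.X₃) :
    Van m i S.X₁ := by
  intro n ξ
  obtain ⟨N, hN, η, hη⟩ := exact₁ hS hij ξ (h2 n _)
  rw [← evz_pre_iff hN, ← hη]
  exact (h3 N η).comp _ _

theorem van₁_zero (h2 : Van m 0 S.X₂) : Van m 0 S.X₁ := by
  intro n ξ
  have := hS.mono_f
  exact inj_zero_of_mono S.f n ξ (h2 n _)

/-- vanishing for the middle term -/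
theorem van₂ {i : ℕ} (h1 : Van m i S.X₁) (h3 : Van m i S.X₃) : Van m i S.X₂ := by
  intro n ξ
  obtain ⟨N, hN, η, hη⟩ := exact₂ hS ξ (h3 n _)
  rw [← evz_pre_iff hN, ← hη]
  exact (h1 N η).comp _ _

/-- `H^i(f)` is injective if `H^(i-1)(M'') = 0`. -/
theorem inj_f_succ {i j : ℕ} (hij : j + 1 = i) (h3 : Van m j S.X₃) : Inj m i S.f := by
  intro n ξ hξ
  obtain ⟨N, hN, η, hη⟩ := exact₁ hS hij ξ hξ
  rw [← evz_pre_iff hN, ← hη]
  exact (h3 N η).comp _ _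

/-- injectivity of `H^i` of the first component of a morphism of short exact sequences -/
theorem inj₁ {S' : ShortComplex (ModuleCat.{u} R)} (hS' : S'.ShortExact) (φ : S ⟶ S')
    {i j : ℕ} (hij : j + 1 = i) (h2 : Inj m i φ.τ₂) (h3 : Inj m j φ.τ₃) (hv : Van m j S'.X₂) :
    Inj m i φ.τ₁ := by
  intro n ξ hξ
  have h1 : EvZ (ξ.comp (Ext.mk₀ S.f) (add_zero i)) := by
    apply h2
    rw [Ext.comp_assoc_of_third_deg_zero, Ext.mk₀_comp_mk₀, ← φ.comm₁₂, ← Ext.mk₀_comp_mk₀,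
      ← Ext.comp_assoc_of_third_deg_zero]
    exact hξ.comp _ _
  obtain ⟨N, hN, η, hη⟩ := exact₁ hS hij ξ h1
  rw [← evz_pre_iff hN, ← hη]
  refine EvZ.comp ?_ _ _
  apply h3
  have h4 : EvZ ((η.comp (Ext.mk₀ φ.τ₃) (add_zero j)).comp hS'.extClass hij) := by
    rw [Ext.comp_assoc η (Ext.mk₀ φ.τ₃) hS'.extClass (add_zero j) (zero_add 1) (by omega),
      ← ShortComplex.ShortExact.extClass_naturality hS hS' φ,
      ← Ext.comp_assoc η hS.extClass (Ext.mk₀ φ.τ₁) hij (add_zero 1) (by omega), hη,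
      Ext.comp_assoc_of_third_deg_zero, evz_pre_iff hN]
    exact hξ
  obtain ⟨N', hN', ζ, hζ⟩ := exact₃ hS' hij _ h4
  rw [← evz_pre_iff hN', ← hζ]
  exact (hv N' ζ).comp _ _

end LES

/-- The action of an endomorphism on `Ext`. -/
def act {M : ModuleCat.{u} R} (u : M ⟶ M) {i n : ℕ} (ξ : Ext (Q m n) M i) : Ext (Q m n) M i :=
  ξ.comp (Ext.mk₀ u) (add_zero i)

variable (m) in
/-- Every class in `H^i_m(M)` is killed by a power of `u`. -/
def Nilp (i : ℕ) {M : ModuleCat.{u} R} (u : M ⟶ M) : Prop :=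
  ∀ (n : ℕ) (ξ : Ext (Q m n) M i), ∃ k, EvZ ((act u)^[k] ξ)

theorem van_of_inj_of_nilp {i : ℕ} {M : ModuleCat.{u} R} {u : M ⟶ M} (hi : Inj m i u)
    (hn : Nilp m i u) : Van m i M := by
  intro n ξ
  obtain ⟨k, hk⟩ := hn n ξ
  induction k with
  | zero => exact hk
  | succ k ih =>
    apply ih
    rw [Function.iterate_succ_apply'] at hk
    exact hi n _ hk

theorem act_smul_id {M : ModuleCat.{u} R} (y : R) {i n : ℕ} (ξ : Ext (Q m n) M i) (k : ℕ) :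
    (act (y • 𝟙 M))^[k] ξ = ξ.comp (Ext.mk₀ (y ^ k • 𝟙 M)) (add_zero i) := by
  induction k with
  | zero => simp
  | succ k ih =>
    rw [Function.iterate_succ_apply', ih]
    unfold act
    rw [Ext.comp_assoc_of_third_deg_zero, Ext.mk₀_comp_mk₀, Linear.smul_comp, Category.id_comp,
      smul_smul, pow_succ]

theorem act_pow_eq_zero {M : ModuleCat.{u} R} {y : R} (hy : y ∈ m) {i n : ℕ} (ξ : Ext (Q m n) M i) :
    ξ.comp (Ext.mk₀ (y ^ n • 𝟙 M)) (add_zero i) = 0 := by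
  have hmem : y ^ n ∈ Module.annihilator R (Q m n) := by
    rw [Module.mem_annihilator]
    intro x
    obtain ⟨r, rfl⟩ := Submodule.Quotient.mk_surjective _ x
    rw [← Submodule.Quotient.mk_smul, Submodule.Quotient.mk_eq_zero]
    exact Ideal.mul_mem_right _ _ (Ideal.pow_mem_pow hy n)
  have h := Ext.postcomp_smul_id_eq_zero_of_mem_annihilator (M := M) hmem i
  have := congrArg (fun f => (ConcreteCategory.hom f) ξ) h
  exact this

theorem nilp_of_iterate_eq {i : ℕ} {M : ModuleCat.{u} R} {u : M ⟶ M} {y : R} (hy : y ∈ m) (a : ℕ)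
    (h : ∀ (n : ℕ) (ξ : Ext (Q m n) M i), (act u)^[a] ξ = act (y • 𝟙 M) ξ) : Nilp m i u := by
  intro n ξ
  refine ⟨a * n, ?_⟩
  have h1 : (act u)^[a] = act (m := m) (i := i) (n := n) (y • 𝟙 M) := funext (h n)
  rw [Function.iterate_mul, h1, act_smul_id, act_pow_eq_zero hy]
  exact evz_zero

theorem nilp_smul {i : ℕ} {M : ModuleCat.{u} R} {y : R} (hy : y ∈ m) : Nilp m i (y • 𝟙 M) :=
  nilp_of_iterate_eq hy 1 fun _ _ => rfl

/-- The deformation step: `H^i(Φ)` is injective. -/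
theorem inj_of_deform {S S' : ShortComplex (ModuleCat.{u} R)} (hS : S.ShortExact)
    (hS' : S'.ShortExact) (φ : S ⟶ S') {i j : ℕ} (hij : j + 1 = i) (h3 : Inj m j φ.τ₃)
    (hv : Van m j S'.X₂) (e : S.X₂ ⟶ S.X₁) (u : S.X₂ ⟶ S.X₂) (hu : u = e ≫ S.f)
    (v : S'.X₂ ⟶ S'.X₁) (hτ : e ≫ φ.τ₁ = φ.τ₂ ≫ v) (e' : S.X₁ ⟶ S.X₂) (he' : e ≫ e' = 𝟙 _)
    (hn : Nilp m i u) : Inj m i φ.τ₂ := by
  -- basic claim
  have claim : ∀ (n : ℕ) (ξ : Ext (Q m n) S.X₂ i), EvZ (ξ.comp (Ext.mk₀ φ.τ₂) (add_zero i)) →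
      EvZ (act u ξ) → EvZ ξ := by
    intro n ξ hξ hu0
    set ξ' : Ext (Q m n) S.X₁ i := ξ.comp (Ext.mk₀ e) (add_zero i) with hξ'
    have h1 : EvZ (ξ'.comp (Ext.mk₀ S.f) (add_zero i)) := by
      rw [hξ', Ext.comp_assoc_of_third_deg_zero, Ext.mk₀_comp_mk₀, ← hu]
      exact hu0
    have h2 : EvZ (ξ'.comp (Ext.mk₀ φ.τ₁) (add_zero i)) := by
      rw [hξ', Ext.comp_assoc_of_third_deg_zero, Ext.mk₀_comp_mk₀, hτ, ← Ext.mk₀_comp_mk₀,
        ← Ext.comp_assoc_of_third_deg_zero]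
      exact hξ.comp _ _
    obtain ⟨N, hN, η, hη⟩ := exact₁ hS hij ξ' h1
    have h4 : EvZ ((η.comp (Ext.mk₀ φ.τ₃) (add_zero j)).comp hS'.extClass hij) := by
      rw [Ext.comp_assoc η (Ext.mk₀ φ.τ₃) hS'.extClass (add_zero j) (zero_add 1) (by omega),
        ← ShortComplex.ShortExact.extClass_naturality hS hS' φ,
        ← Ext.comp_assoc η hS.extClass (Ext.mk₀ φ.τ₁) hij (add_zero 1) (by omega), hη,
        Ext.comp_assoc_of_third_deg_zero, evz_pre_iff hN]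
      exact h2
    obtain ⟨N', hN', ζ, hζ⟩ := exact₃ hS' hij _ h4
    have h5 : EvZ η := by
      apply h3
      rw [← evz_pre_iff hN', ← hζ]
      exact (hv N' ζ).comp _ _
    have h6 : EvZ ξ' := by
      rw [← evz_pre_iff hN, ← hη]
      exact h5.comp _ _
    have h7 : ξ = ξ'.comp (Ext.mk₀ e') (add_zero i) := by
      rw [hξ', Ext.comp_assoc_of_third_deg_zero, Ext.mk₀_comp_mk₀, he']
      simp
    rw [h7]
    exact h6.comp _ _
  -- relation between `u` and `τ₂`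
  have hcomm : u ≫ φ.τ₂ = φ.τ₂ ≫ (v ≫ S'.f) := by
    rw [hu, Category.assoc, ← φ.comm₁₂, ← Category.assoc, hτ, Category.assoc]
  intro n ξ hξ
  obtain ⟨k, hk⟩ := hn n ξ
  have key : ∀ k : ℕ, EvZ (((act u)^[k] ξ).comp (Ext.mk₀ φ.τ₂) (add_zero i)) := by
    intro k
    induction k with
    | zero => exact hξ
    | succ k ih =>
      rw [Function.iterate_succ_apply']
      unfold act at ih ⊢
      rw [Ext.comp_assoc_of_third_deg_zero, Ext.mk₀_comp_mk₀, hcomm, ← Ext.mk₀_comp_mk₀,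
        ← Ext.comp_assoc_of_third_deg_zero]
      exact ih.comp _ _
  induction k with
  | zero => exact hk
  | succ k ih =>
    apply ih
    rw [Function.iterate_succ_apply'] at hk
    exact claim n _ (key k) hk

end Pool.Agent.H34.FInj
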