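import Pool.Agent.H34.FInj.Param

/-!
# F-finiteness
-/

set_option autoImplicit false

open MvPowerSeries RingTheory.Sequence CategoryTheory

noncomputable section

namespace Pool.Agent.H34.FInj

variable (k : Type) [Field k] (p : ℕ) [hp : Fact p.Prime] [CharP k p]

/-- exponent vector of a residue vector -/
def ex (a : Fin 4 → Fin p) : Fin 4 →₀ ℕ := Finsupp.equivFunOnFinite.symm fun i => (a i : ℕ)

omit hp in
theorem ex_apply (a : Fin 4 → Fin p) (i : Fin 4) : ex p a i = a i := rfl

variable {k p}

theorem coeff_pow_smul (g : S4 k) (m : Fin 4 →₀ ℕ) : coeff (p • m) (g ^ p) = coeff m g ^ p := by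
  rw [← map_frobenius_expand p hp.out.ne_zero, coeff_map, coeff_expand_smul]
  rfl

theorem coeff_pow_not (g : S4 k) (m : Fin 4 →₀ ℕ) (i : Fin 4) (h : ¬ p ∣ m i) :
    coeff m (g ^ p) = 0 := by
  rw [← map_frobenius_expand p hp.out.ne_zero, coeff_map, coeff_expand_of_not_dvd p _ g h, map_zero]

theorem frob_decomp (hk : ∀ c : k, ∃ d : k, d ^ p = c) (f : S4 k) :
    ∃ g : (Fin 4 → Fin p) → S4 k, f = ∑ a, g a ^ p * monomial (ex p a) 1 := by
  choose rt hrt using hk
  obtain ⟨g, hg⟩ : ∃ g : (Fin 4 → Fin p) → S4 k, ∀ a m, coeff m (g a) =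
      rt (coeff (p • m + ex p a) f) := ⟨fun a m => rt (coeff (p • m + ex p a) f), fun _ _ => rfl⟩
  refine ⟨g, ?_⟩
  ext n
  rw [map_sum]
  have hpos : 0 < p := hp.out.pos
  let a0 : Fin 4 → Fin p := fun i => ⟨n i % p, Nat.mod_lt _ hpos⟩
  rw [Finset.sum_eq_single a0]
  · rw [coeff_mul_monomial, if_pos]
    · let m : Fin 4 →₀ ℕ := Finsupp.equivFunOnFinite.symm fun i => n i / p
      have h1 : n - ex p a0 = p • m := by
        ext i
        rw [Finsupp.tsub_apply, ex_apply, Finsupp.smul_apply]
        change n i - n i % p = p * (n i / p)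
        have := Nat.div_add_mod (n i) p
        omega
      rw [h1, coeff_pow_smul, mul_one, hg, hrt, ← h1, tsub_add_cancel_of_le]
      intro i
      exact Nat.mod_le _ _
    · intro i
      exact Nat.mod_le _ _
  · intro a _ ha
    rw [coeff_mul_monomial]
    split_ifs with hle
    · have : ∃ i, ¬ p ∣ (n - ex p a) i := by
        by_contra hcon
        push Not at hcon
        apply ha
        ext i
        have h1 := hcon i
        rw [Finsupp.tsub_apply, ex_apply] at h1
        have h2 : (a i : ℕ) ≤ n i := hle i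
        have h3 : (a i : ℕ) < p := (a i).2
        change (a i : ℕ) = n i % p
        obtain ⟨c, hc⟩ := h1
        have h4 : n i = a i + p * c := by omega
        rw [h4, Nat.add_mul_mod_self_left, Nat.mod_eq_of_lt h3]
      obtain ⟨i, hi⟩ := this
      rw [coeff_pow_not _ _ i hi, zero_mul]
    · rfl
  · intro h
    exact absurd (Finset.mem_univ _) h

omit hp in
theorem finite_of_sum {A B ι : Type*} [CommRing A] [CommRing B] (f : A →+* B) [Fintype ι]
    (v : ι → B) (h : ∀ b, ∃ c : ι → A, b = ∑ i, f (c i) * v i) : f.Finite := by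
  letI := f.toAlgebra
  change Module.Finite A B
  classical
  refine ⟨⟨Finset.univ.image v, ?_⟩⟩
  rw [eq_top_iff]
  intro b _
  obtain ⟨c, hc⟩ := h b
  rw [hc]
  refine Submodule.sum_mem _ fun i _ => ?_
  have : f (c i) * v i = c i • v i := (Algebra.smul_def _ _).symm
  rw [this]
  exact Submodule.smul_mem _ _ (Submodule.subset_span (by simp))

theorem frobS_finite (hk : ∀ c : k, ∃ d : k, d ^ p = c) : (frobenius (S4 k) p).Finite :=
  finite_of_sum _ (fun a => monomial (ex p a) 1) fun f => frob_decomp hk f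

theorem frobGR_finite (hk : ∀ c : k, ∃ d : k, d ^ p = c) : (frobenius (GR k) p).Finite := by
  have h1 : ((dg k).comp (frobenius (S4 k) p)).Finite := RingHom.Finite.comp (dg_finite k) (frobS_finite hk)
  have h2 : (dg k).comp (frobenius (S4 k) p) = (frobenius (GR k) p).comp (dg k) := by
    ext1 f
    simp only [RingHom.comp_apply, frobenius_def, map_pow]
  rw [h2] at h1
  exact RingHom.Finite.of_comp_finite h1

end Pool.Agent.H34.FInj
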