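import Pool.Agent.H34.FInj.ExtColim

/-!
# Vanishing of the higher local cohomology of power-torsion modules
-/

set_option autoImplicit false

universe u

open CategoryTheory Abelian

noncomputable section

namespace Pool.Agent.H34.FInj

variable {R : Type u} [CommRing R] (m : Ideal R)

/-- Every element of `M` is killed by a power of `m`. -/
def IsTors (M : Type*) [AddCommGroup M] [Module R M] : Prop :=
  ∀ x : M, ∃ k : ℕ, ∀ r ∈ m ^ k, r • x = 0

/-- The submodule of elements killed by a power of `m`. -/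
def tors (M : Type*) [AddCommGroup M] [Module R M] : Submodule R M where
  carrier := {x | ∃ k : ℕ, ∀ r ∈ m ^ k, r • x = 0}
  zero_mem' := ⟨0, fun r _ => smul_zero r⟩
  add_mem' := by
    rintro x y ⟨k, hk⟩ ⟨l, hl⟩
    refine ⟨max k l, fun r hr => ?_⟩
    rw [smul_add, hk r (Ideal.pow_le_pow_right (le_max_left _ _) hr),
      hl r (Ideal.pow_le_pow_right (le_max_right _ _) hr), add_zero]
  smul_mem' := by
    rintro c x ⟨k, hk⟩
    refine ⟨k, fun r hr => ?_⟩
    rw [smul_comm, hk r hr, smul_zero]

theorem isTors_tors (M : Type*) [AddCommGroup M] [Module R M] : IsTors m (tors m M) := by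
  rintro ⟨x, k, hk⟩
  exact ⟨k, fun r hr => Subtype.ext (hk r hr)⟩

variable {m}

theorem IsTors.quotient {M : Type*} [AddCommGroup M] [Module R M] (h : IsTors m M)
    (N : Submodule R M) : IsTors m (M ⧸ N) := by
  intro x
  obtain ⟨y, rfl⟩ := Submodule.Quotient.mk_surjective _ x
  obtain ⟨k, hk⟩ := h y
  exact ⟨k, fun r hr => by rw [← Submodule.Quotient.mk_smul, hk r hr, Submodule.Quotient.mk_zero]⟩

/-- uniform exponent for a linear map from an ideal to a torsion module -/
theorem exists_uniform [IsNoetherianRing R] {M : Type*} [AddCommGroup M] [Module R M]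
    (h : IsTors m M) (J : Ideal R) (g : J →ₗ[R] M) :
    ∃ n : ℕ, ∀ r ∈ m ^ n, ∀ x : J, r • g x = 0 := by
  have hfg : (⊤ : Submodule R J).FG := IsNoetherian.noetherian _
  obtain ⟨s, hs⟩ := hfg
  choose k hk using h
  refine ⟨s.sup (fun x => k (g x)), fun r hr x => ?_⟩
  have hx : x ∈ Submodule.span R (s : Set J) := by rw [hs]; trivial
  induction hx using Submodule.span_induction with
  | mem x hx =>
    apply hk
    exact Ideal.pow_le_pow_right (Finset.le_sup (f := fun x => k (g x)) hx) hr
  | zero => simp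
  | add x y _ _ hx hy => rw [map_add, smul_add, hx, hy, add_zero]
  | smul c x _ hx => rw [map_smul, smul_comm, hx, smul_zero]

/-- The torsion submodule of an injective module over a Noetherian ring is injective. -/
theorem baer_tors [IsNoetherianRing R] {I : Type u} [AddCommGroup I] [Module R I]
    (hI : Module.Injective R I) : Module.Baer R (tors m I) := by
  intro J g
  obtain ⟨n, hn⟩ := exists_uniform (isTors_tors m I) J g
  obtain ⟨k, hk⟩ := Ideal.exists_pow_inf_eq_pow_smul m J
  have hle : m ^ (n + k) ⊓ J ≤ m ^ n • J := by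
    have h1 := hk (n + k) (Nat.le_add_left _ _)
    rw [Nat.add_sub_cancel] at h1
    have h2 : m ^ (n + k) • (⊤ : Submodule R R) = m ^ (n + k) := by
      rw [smul_eq_mul]; exact Ideal.mul_top _
    rw [h2] at h1
    rw [h1]
    exact Submodule.smul_mono le_rfl inf_le_right
  -- `g` vanishes on `m ^ (n + k) ⊓ J`
  have hvan : ∀ x : J, (x : R) ∈ m ^ (n + k) → g x = 0 := by
    intro x hx
    have hx' : (x : R) ∈ m ^ n • J := hle ⟨hx, x.2⟩
    have key : ∃ hy : (x : R) ∈ J, g ⟨x, hy⟩ = 0 := by
      refine Submodule.smul_induction_on (p := fun y => ∃ hy : y ∈ J, g ⟨y, hy⟩ = 0) hx' ?_ ?_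
      · intro r hr a ha
        refine ⟨J.mul_mem_left r ha, ?_⟩
        have : (⟨r • a, J.mul_mem_left r ha⟩ : J) = r • (⟨a, ha⟩ : J) := rfl
        rw [this, map_smul]
        exact hn r hr _
      · rintro a b ⟨ha, ha'⟩ ⟨hb, hb'⟩
        refine ⟨J.add_mem ha hb, ?_⟩
        have : (⟨a + b, J.add_mem ha hb⟩ : J) = ⟨a, ha⟩ + ⟨b, hb⟩ := rfl
        rw [this, map_add, ha', hb', add_zero]
    obtain ⟨_, h⟩ := key
    exact h
  -- extend the induced map on `J / (J ⊓ m ^ (n + k))` to `R / m ^ (n + k)`
  let P : Submodule R R := m ^ (n + k)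
  let J' : Submodule R R := J
  let f1 : (J' ⧸ P.comap J'.subtype) →ₗ[R] (R ⧸ P) := Submodule.mapQ _ _ J'.subtype le_rfl
  have hf1 : Function.Injective f1 := by
    rw [← LinearMap.ker_eq_bot, LinearMap.ker_eq_bot']
    intro x
    obtain ⟨y, rfl⟩ := Submodule.Quotient.mk_surjective _ x
    intro h
    simp only [f1, Submodule.mapQ_apply, Submodule.Quotient.mk_eq_zero] at h
    rw [Submodule.Quotient.mk_eq_zero]
    exact h
  let g1 : (J' ⧸ P.comap J'.subtype) →ₗ[R] I :=
    Submodule.liftQ _ ((tors m I).subtype ∘ₗ g) (by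
      intro x hx
      rw [LinearMap.mem_ker, LinearMap.comp_apply, hvan x hx, map_zero])
  obtain ⟨h, hh⟩ := hI.out f1 hf1 g1
  -- the image of `1`
  have hmem : h (Submodule.Quotient.mk 1) ∈ tors m I := by
    refine ⟨n + k, fun r hr => ?_⟩
    rw [← map_smul, ← Submodule.Quotient.mk_smul]
    have : (Submodule.Quotient.mk (r • (1 : R)) : R ⧸ P) = 0 := by
      rw [Submodule.Quotient.mk_eq_zero, smul_eq_mul, mul_one]
      exact hr
    rw [this, map_zero]
  refine ⟨LinearMap.toSpanSingleton R _ ⟨_, hmem⟩, fun x hx => ?_⟩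
  apply Subtype.ext
  have h1 := hh (Submodule.Quotient.mk ⟨x, hx⟩)
  simp only [f1, g1, Submodule.mapQ_apply, Submodule.liftQ_apply, LinearMap.comp_apply] at h1
  change x • h (Submodule.Quotient.mk 1) = _
  rw [← map_smul, ← Submodule.Quotient.mk_smul, smul_eq_mul, mul_one]
  exact h1

theorem injective_tors [IsNoetherianRing R] {I : Type u} [AddCommGroup I] [Module R I]
    (hI : Module.Injective R I) : Injective (ModuleCat.of R (tors m I)) := by
  have := (baer_tors (m := m) hI).injective
  exact Module.injective_object_of_injective_module R _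

theorem van_of_injective {M : ModuleCat.{u} R} [Injective M] (i : ℕ) : Van m (i + 1) M :=
  fun n ξ => by
    rw [Ext.eq_zero_of_injective ξ]
    exact evz_zero

/-- The short complex `0 → M → tors I → tors I / M → 0`. -/
theorem exists_ses [IsNoetherianRing R] (M : ModuleCat.{u} R) (hM : IsTors m M) :
    ∃ S : ShortComplex (ModuleCat.{u} R), S.ShortExact ∧ S.X₁ = M ∧ Injective S.X₂ ∧
      IsTors m S.X₂ ∧ IsTors m S.X₃ := by
  let I := Injective.under M
  let ι : M →ₗ[R] I := (Injective.ι M).hom
  have hι : Function.Injective ι := (ModuleCat.mono_iff_injective _).1 inferInstance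
  have hinj : Injective (ModuleCat.of R I) := inferInstanceAs (Injective (Injective.under M))
  have hI : Module.Injective R I := Module.injective_module_of_injective_object R I
  have hrange : ∀ x, ι x ∈ tors m I := by
    intro x
    obtain ⟨k, hk⟩ := hM x
    exact ⟨k, fun r hr => by rw [← map_smul, hk r hr, map_zero]⟩
  let ι' : M →ₗ[R] tors m I := ι.codRestrict _ hrange
  have hι' : Function.Injective ι' := fun x y h => hι (congrArg Subtype.val h)
  refine ⟨ModuleCat.shortComplexOfCompEqZero ι' (LinearMap.range ι').mkQ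
    (LinearMap.range_mkQ_comp ι'), ?_, rfl, ?_, isTors_tors m I, (isTors_tors m I).quotient _⟩
  · refine ModuleCat.shortComplex_shortExact _ ?_ hι' (Submodule.mkQ_surjective _)
    exact LinearMap.exact_map_mkQ_range ι'
  · exact injective_tors hI

/-- Power-torsion modules have no higher local cohomology. -/
theorem van_of_isTors [IsNoetherianRing R] (i : ℕ) :
    ∀ (M : ModuleCat.{u} R), IsTors m M → Van m (i + 1) M := by
  induction i with
  | zero =>
    intro M hM
    obtain ⟨S, hS, rfl, hI, h2, h3⟩ := exists_ses M hM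
    intro n ξ
    have h0 : EvZ (ξ.comp (Ext.mk₀ S.f) (add_zero 1)) := van_of_injective 0 _ _
    obtain ⟨N, hN, η, hη⟩ := exact₁ hS (rfl : 0 + 1 = 1) ξ h0
    rw [← evz_pre_iff hN, ← hη]
    -- lift the homomorphism `η : R/m^N → S.X₃`
    obtain ⟨f, rfl⟩ := (Ext.mk₀_bijective (Q m N) S.X₃).2 η
    have := hS.epi_g
    have hsurj : Function.Surjective S.g.hom := (ModuleCat.epi_iff_surjective _).1 inferInstance
    obtain ⟨γ, hγ⟩ := hsurj (f.hom (Submodule.Quotient.mk 1))
    obtain ⟨k, hk⟩ := h2 γ
    let N' := max N k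
    let ζ : Q m N' ⟶ S.X₂ := ModuleCat.ofHom (Submodule.liftQ _ (LinearMap.toSpanSingleton R _ γ) (by
      intro r hr
      rw [LinearMap.mem_ker, LinearMap.toSpanSingleton_apply]
      exact hk r (Ideal.pow_le_pow_right (le_max_right _ _) hr)))
    have hcomm : ζ ≫ S.g = proj m (le_max_left N k) ≫ f := by
      ext
      change S.g.hom ((1 : R) • γ) = f.hom (Submodule.Quotient.mk 1)
      rw [one_smul, hγ]
    rw [← evz_pre_iff (le_max_left N k)]
    rw [← Ext.comp_assoc (Ext.mk₀ (proj m (le_max_left N k))) (Ext.mk₀ f) hS.extClass (zero_add 0)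
      (zero_add 1) (by omega), Ext.mk₀_comp_mk₀, ← hcomm, ← Ext.mk₀_comp_mk₀,
      Ext.comp_assoc (Ext.mk₀ ζ) (Ext.mk₀ S.g) hS.extClass (zero_add 0) (zero_add 1) (by omega)]
    simp only [ShortComplex.ShortExact.comp_extClass, Ext.comp_zero]
    exact evz_zero
  | succ i ih =>
    intro M hM
    obtain ⟨S, hS, rfl, hI, h2, h3⟩ := exists_ses M hM
    exact van₁ hS rfl (van_of_injective _) (ih _ h3)

end Pool.Agent.H34.FInj
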