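import Pool.Agent.H34.FInj.Defs
import Pool.Agent.H34.FInj.Torsion

/-!
# Frobenius pushforward of modules and F-injectivity in the deformation situation
-/

set_option autoImplicit false

universe u

open CategoryTheory Abelian

noncomputable section

namespace Pool.Agent.H34.FInj

variable {R : Type u} [CommRing R] (p : ℕ) [ExpChar R p]

variable {p} in
theorem fstar_smul {M : Type u} [AddCommGroup M] [Module R M] (r : R) (x : M) :
    (r • (id x : FStar p M) : FStar p M) = (id (r ^ p • x) : M) := rfl

/-- Functoriality of `F_*`. -/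
def fmap {M N : Type u} [AddCommGroup M] [Module R M] [AddCommGroup N] [Module R N]
    (f : M →ₗ[R] N) : FStar p M →ₗ[R] FStar p N where
  toFun x := f x
  map_add' x y := f.map_add x y
  map_smul' r x := f.map_smul (r ^ p) x

/-- The Frobenius of `R ⧸ I`. -/
def frobQ (I : Ideal R) : (R ⧸ I) →ₗ[R] FStar p (R ⧸ I) :=
  Submodule.liftQ I ((fmap p (Submodule.mkQ I)) ∘ₗ frobR p) (by
    intro x hx
    rw [LinearMap.mem_ker]
    change Submodule.Quotient.mk (x ^ p) = 0
    rw [Submodule.Quotient.mk_eq_zero]
    exact Ideal.pow_mem_of_mem I hx p (expChar_pos R p))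

theorem frobQ_mk (I : Ideal R) (x : R) :
    frobQ p I (Submodule.Quotient.mk x) = (Submodule.Quotient.mk (x ^ p) : R ⧸ I) := rfl

/-- The short complex `F_* S`. -/
def fShort (S : ShortComplex (ModuleCat.{u} R)) : ShortComplex (ModuleCat.{u} R) :=
  ModuleCat.shortComplexOfCompEqZero (fmap p S.f.hom) (fmap p S.g.hom) (by
    ext x
    exact LinearMap.congr_fun (congrArg ModuleCat.Hom.hom S.zero) x)

theorem fShort_shortExact {S : ShortComplex (ModuleCat.{u} R)} (hS : S.ShortExact) :
    (fShort p S).ShortExact := by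
  have h1 : Function.Exact S.f.hom S.g.hom :=
    (ShortComplex.ShortExact.moduleCat_exact_iff_function_exact _).1 hS.exact
  have h2 : Function.Injective S.f.hom := by
    have := hS.mono_f
    exact (ModuleCat.mono_iff_injective _).1 this
  have h3 : Function.Surjective S.g.hom := by
    have := hS.epi_g
    exact (ModuleCat.epi_iff_surjective _).1 this
  exact ModuleCat.shortComplex_shortExact _ (fun x => h1 x) (fun x y h => h2 h) (fun x => h3 x)

variable (m : Ideal R)

/-- `M` is like a Cohen-Macaulay module of dimension `t` on which the Frobenius `Φ` acts injectively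
on local cohomology. -/
structure Good (t : ℕ) (M : ModuleCat.{u} R) (Φ : M ⟶ ModuleCat.of R (FStar p M)) : Prop where
  van : ∀ i, i ≠ t → Van m i M
  vanF : ∀ i, i < t → Van m i (ModuleCat.of R (FStar p M))
  inj : ∀ i, Inj m i Φ

variable {m p}

theorem good_zero [IsNoetherianRing R] {M : ModuleCat.{u} R} (hM : IsTors m M)
    (Φ : M ⟶ ModuleCat.of R (FStar p M)) (hΦ : Function.Injective Φ.hom) : Good p m 0 M Φ := by
  have hmono : Mono Φ := (ModuleCat.mono_iff_injective _).2 hΦ
  have hvan : ∀ i, i ≠ 0 → Van m i M := by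
    intro i hi
    obtain ⟨j, rfl⟩ := Nat.exists_eq_succ_of_ne_zero hi
    exact van_of_isTors j M hM
  refine ⟨hvan, fun i hi => absurd hi (Nat.not_lt_zero i), fun i => ?_⟩
  by_cases hi : i = 0
  · subst hi
    exact inj_zero_of_mono Φ
  · exact (hvan i hi).inj Φ

/-- multiplication by an element `y` followed by Frobenius -/
theorem act_fmap (M : ModuleCat.{u} R) (y : R) {i n : ℕ}
    (ξ : Ext (Q m n) (ModuleCat.of R (FStar p M)) i) (k : ℕ) :
    (act (ModuleCat.ofHom (fmap p (LinearMap.lsmul R M y))))^[k] ξ =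
      act (ModuleCat.ofHom (fmap p (LinearMap.lsmul R M (y ^ k)))) ξ := by
  induction k with
  | zero =>
    unfold act
    have : ModuleCat.ofHom (fmap p (LinearMap.lsmul R M (y ^ 0))) =
        𝟙 (ModuleCat.of R (FStar p M)) := by
      ext x
      change y ^ 0 • (show M from x) = x
      rw [pow_zero, one_smul]
    rw [this]
    simp
  | succ k ih =>
    rw [Function.iterate_succ_apply', ih]
    unfold act
    rw [Ext.comp_assoc_of_third_deg_zero, Ext.mk₀_comp_mk₀]
    congr 2
    ext x
    change y • y ^ k • (show M from x) = y ^ (k + 1) • (show M from x)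
    rw [smul_smul, pow_succ']

theorem nilp_fmap {i : ℕ} (M : ModuleCat.{u} R) {y : R} (hy : y ∈ m) :
    Nilp m i (ModuleCat.ofHom (fmap p (LinearMap.lsmul R M y))) := by
  refine nilp_of_iterate_eq hy p fun n ξ => ?_
  rw [act_fmap]
  unfold act
  congr 2

/-- The deformation step. -/
theorem Good.step {t : ℕ} {M M'' : ModuleCat.{u} R} {Φ : M ⟶ ModuleCat.of R (FStar p M)}
    {Φ'' : M'' ⟶ ModuleCat.of R (FStar p M'')} (y : R) (hy : y ∈ m)
    (hinj : Function.Injective (LinearMap.lsmul R M y)) (g : M →ₗ[R] M'')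
    (hsurj : Function.Surjective g) (hexact : Function.Exact (LinearMap.lsmul R M y) g)
    (hcomm : ∀ x : M, Φ''.hom (g x) = fmap p g (Φ.hom x))
    (h : Good p m t M'' Φ'') : Good p m (t + 1) M Φ := by
  let S : ShortComplex (ModuleCat.{u} R) :=
    ModuleCat.shortComplexOfCompEqZero (LinearMap.lsmul R M y) g hexact.linearMap_comp_eq_zero
  have hS : S.ShortExact := ModuleCat.shortComplex_shortExact _ hexact hinj hsurj
  have hS' : (fShort p S).ShortExact := fShort_shortExact p hS
  have hvan : ∀ i, i ≠ t + 1 → Van m i M := by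
    intro i hi
    refine van_of_inj_of_nilp (u := y • 𝟙 M) ?_ (nilp_smul hy)
    rcases Nat.eq_zero_or_pos i with h0 | h0
    · subst h0
      have : Mono (y • 𝟙 M) := (ModuleCat.mono_iff_injective _).2 hinj
      exact inj_zero_of_mono _
    · obtain ⟨j, rfl⟩ := Nat.exists_eq_succ_of_ne_zero h0.ne'
      exact inj_f_succ hS rfl (h.van j (by omega))
  have hvanF : ∀ i, i < t + 1 → Van m i (ModuleCat.of R (FStar p M)) := by
    intro i hi
    refine van_of_inj_of_nilp (u := ModuleCat.ofHom (fmap p (LinearMap.lsmul R M y))) ?_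
      (nilp_fmap M hy)
    rcases Nat.eq_zero_or_pos i with h0 | h0
    · subst h0
      have : Mono (ModuleCat.ofHom (fmap p (LinearMap.lsmul R M y))) :=
        (ModuleCat.mono_iff_injective _).2 hinj
      exact inj_zero_of_mono _
    · obtain ⟨j, rfl⟩ := Nat.exists_eq_succ_of_ne_zero h0.ne'
      exact inj_f_succ hS' rfl (h.vanF j (by omega))
  refine ⟨hvan, hvanF, fun i => ?_⟩
  by_cases hi : i = t + 1
  · subst hi
    -- the morphism of short exact sequences
    let v : ModuleCat.of R (FStar p M) ⟶ ModuleCat.of R (FStar p M) :=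
      ModuleCat.ofHom (fmap p (LinearMap.lsmul R M (y ^ (p - 1))))
    let φ : S ⟶ fShort p S :=
      { τ₁ := Φ ≫ v
        τ₂ := Φ
        τ₃ := Φ''
        comm₁₂ := by
          ext x
          change y • (y ^ (p - 1) • (show M from Φ.hom x)) = (show M from Φ.hom (y • x))
          rw [map_smul, smul_smul, ← pow_succ', Nat.sub_add_cancel (expChar_pos R p)]
          rfl
        comm₂₃ := by
          ext x
          exact (hcomm x).symm }
    exact inj_of_deform hS hS' φ rfl (h.inj t) (hvanF t (Nat.lt_succ_self t)) (𝟙 M) (y • 𝟙 M)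
      (by rw [Category.id_comp]; rfl) v (by rw [Category.id_comp]; rfl) (𝟙 M) (Category.id_comp _)
      (nilp_smul hy)
  · exact (hvan i hi).inj Φ

end Pool.Agent.H34.FInj
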