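import Pool.Agent.H34.FInj.Frob

/-!
# F-injectivity of a glued ring

Abstract criterion: `R → R/P₁ × R/P₂ → R/(P₁ + P₂)` and
`R/(Q₁ ∩ Q₂ ∩ Q₃) → R/Q₁ × R/Q₂ × R/Q₃ → R/J₁ × R/J₂`.
-/

set_option autoImplicit false

universe u

open CategoryTheory Abelian

noncomputable section

namespace Pool.Agent.H34.FInj

variable {R : Type u} [CommRing R] {p : ℕ} [ExpChar R p] {m : Ideal R}

section decomp

theorem eq_decomp {P M N : ModuleCat.{u} R} (a : P ⟶ M) (b : P ⟶ N) (a' : M ⟶ P) (b' : N ⟶ P)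
    (h : a ≫ a' + b ≫ b' = 𝟙 P) {i n : ℕ} (ξ : Ext (Q m n) P i) :
    ξ = (ξ.comp (Ext.mk₀ a) (add_zero i)).comp (Ext.mk₀ a') (add_zero i) +
      (ξ.comp (Ext.mk₀ b) (add_zero i)).comp (Ext.mk₀ b') (add_zero i) := by
  rw [Ext.comp_assoc_of_third_deg_zero, Ext.comp_assoc_of_third_deg_zero, Ext.mk₀_comp_mk₀,
    Ext.mk₀_comp_mk₀, ← Ext.comp_add, ← Ext.mk₀_add, h]
  simp

theorem van_of_decomp {P M N : ModuleCat.{u} R} (a : P ⟶ M) (b : P ⟶ N) (a' : M ⟶ P) (b' : N ⟶ P)
    (h : a ≫ a' + b ≫ b' = 𝟙 P) {i : ℕ} (hM : Van m i M) (hN : Van m i N) : Van m i P := by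
  intro n ξ
  rw [eq_decomp a b a' b' h ξ]
  exact ((hM n _).comp _ _).add ((hN n _).comp _ _)

theorem inj_of_decomp {P M N P' M' N' : ModuleCat.{u} R} (a : P ⟶ M) (b : P ⟶ N) (a' : M ⟶ P)
    (b' : N ⟶ P) (h : a ≫ a' + b ≫ b' = 𝟙 P) (Φ : P ⟶ P') (ΦM : M ⟶ M') (ΦN : N ⟶ N')
    (c : P' ⟶ M') (d : P' ⟶ N') (h1 : Φ ≫ c = a ≫ ΦM) (h2 : Φ ≫ d = b ≫ ΦN)
    {i : ℕ} (hM : Inj m i ΦM) (hN : Inj m i ΦN) : Inj m i Φ := by
  intro n ξ hξ
  rw [eq_decomp a b a' b' h ξ]
  refine (EvZ.comp (hM n _ ?_) _ _).add (EvZ.comp (hN n _ ?_) _ _)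
  · rw [Ext.comp_assoc_of_third_deg_zero, Ext.mk₀_comp_mk₀, ← h1, ← Ext.mk₀_comp_mk₀,
      ← Ext.comp_assoc_of_third_deg_zero]
    exact hξ.comp _ _
  · rw [Ext.comp_assoc_of_third_deg_zero, Ext.mk₀_comp_mk₀, ← h2, ← Ext.mk₀_comp_mk₀,
      ← Ext.comp_assoc_of_third_deg_zero]
    exact hξ.comp _ _

variable {M N : Type u} [AddCommGroup M] [Module R M] [AddCommGroup N] [Module R N]

theorem van_prod {i : ℕ} (hM : Van m i (ModuleCat.of R M)) (hN : Van m i (ModuleCat.of R N)) :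
    Van m i (ModuleCat.of R (M × N)) := by
  refine van_of_decomp (ModuleCat.ofHom (LinearMap.fst R M N)) (ModuleCat.ofHom (LinearMap.snd R M N))
    (ModuleCat.ofHom (LinearMap.inl R M N)) (ModuleCat.ofHom (LinearMap.inr R M N)) ?_ hM hN
  refine ModuleCat.hom_ext (LinearMap.ext fun x => ?_)
  change (x.1, (0 : N)) + ((0 : M), x.2) = x
  simp

theorem decompF : ModuleCat.ofHom (fmap p (LinearMap.fst R M N)) ≫
      ModuleCat.ofHom (fmap p (LinearMap.inl R M N)) +
    ModuleCat.ofHom (fmap p (LinearMap.snd R M N)) ≫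
      ModuleCat.ofHom (fmap p (LinearMap.inr R M N)) = 𝟙 (ModuleCat.of R (FStar p (M × N))) := by
  refine ModuleCat.hom_ext (LinearMap.ext fun x => ?_)
  change ((id x : M × N).1, (0 : N)) + ((0 : M), (id x : M × N).2) = (id x : M × N)
  simp

theorem van_prodF {i : ℕ} (hM : Van m i (ModuleCat.of R (FStar p M)))
    (hN : Van m i (ModuleCat.of R (FStar p N))) : Van m i (ModuleCat.of R (FStar p (M × N))) :=
  van_of_decomp _ _ _ _ decompF hM hN

/-- product of two Frobenius structures -/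
def prodF (f : M →ₗ[R] FStar p M) (g : N →ₗ[R] FStar p N) : (M × N) →ₗ[R] FStar p (M × N) where
  toFun x := ((id (f x.1) : M), (id (g x.2) : N))
  map_add' x y := by
    simp only [Prod.fst_add, Prod.snd_add, map_add]
    rfl
  map_smul' r x := by
    simp only [Prod.smul_fst, Prod.smul_snd, map_smul]
    rfl

theorem inj_prodF {i : ℕ} {f : M →ₗ[R] FStar p M} {g : N →ₗ[R] FStar p N}
    (hf : Inj m i (ModuleCat.ofHom f)) (hg : Inj m i (ModuleCat.ofHom g)) :
    Inj m i (ModuleCat.ofHom (prodF f g)) := by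
  refine inj_of_decomp (ModuleCat.ofHom (LinearMap.fst R M N)) (ModuleCat.ofHom (LinearMap.snd R M N))
    (ModuleCat.ofHom (LinearMap.inl R M N)) (ModuleCat.ofHom (LinearMap.inr R M N)) ?_ _
    (ModuleCat.ofHom f) (ModuleCat.ofHom g) (ModuleCat.ofHom (fmap p (LinearMap.fst R M N)))
    (ModuleCat.ofHom (fmap p (LinearMap.snd R M N))) rfl rfl hf hg
  refine ModuleCat.hom_ext (LinearMap.ext fun x => ?_)
  change (x.1, (0 : N)) + ((0 : M), x.2) = x
  simp

end decomp

variable (p m) in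
/-- `Good` for a quotient ring with its Frobenius. -/
def GoodI (t : ℕ) (I : Ideal R) : Prop :=
  Good p m t (ModuleCat.of R (R ⧸ I)) (ModuleCat.ofHom (frobQ p I))

theorem GoodI.step {t : ℕ} {I I' : Ideal R} (y : R) (hy : y ∈ m) (h1 : ∀ r, y * r ∈ I → r ∈ I)
    (hle : I ≤ I') (hy' : y ∈ I') (h2 : ∀ r ∈ I', ∃ s, r - y * s ∈ I) (h : GoodI p m t I') :
    GoodI p m (t + 1) I := by
  refine Good.step y hy ?_ (Submodule.factor hle) (Submodule.factor_surjective hle) ?_ ?_ h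
  · rw [← LinearMap.ker_eq_bot, LinearMap.ker_eq_bot']
    intro x hx
    obtain ⟨r, rfl⟩ := Submodule.Quotient.mk_surjective _ x
    rw [LinearMap.lsmul_apply, ← Submodule.Quotient.mk_smul, Submodule.Quotient.mk_eq_zero] at hx
    rw [Submodule.Quotient.mk_eq_zero]
    exact h1 r hx
  · intro x
    obtain ⟨r, rfl⟩ := Submodule.Quotient.mk_surjective _ x
    change (Submodule.Quotient.mk r : R ⧸ I') = 0 ↔ _
    rw [Submodule.Quotient.mk_eq_zero]
    constructor
    · intro hr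
      obtain ⟨s, hs⟩ := h2 r hr
      refine ⟨Submodule.Quotient.mk s, ?_⟩
      rw [LinearMap.lsmul_apply, ← Submodule.Quotient.mk_smul]
      symm
      rw [Submodule.Quotient.eq]
      exact hs
    · rintro ⟨s', hs'⟩
      obtain ⟨s, rfl⟩ := Submodule.Quotient.mk_surjective _ s'
      rw [LinearMap.lsmul_apply, ← Submodule.Quotient.mk_smul] at hs'
      symm at hs'
      rw [Submodule.Quotient.eq] at hs'
      have h3 : r = (r - y * s) + y * s := by ring
      rw [h3]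
      exact I'.add_mem (hle hs') (I'.mul_mem_right _ hy')
  · intro x
    change R ⧸ I at x
    obtain ⟨r, rfl⟩ := Submodule.Quotient.mk_surjective _ x
    rfl

theorem goodI_self [IsNoetherianRing R] (hm : m.IsPrime) : GoodI p m 0 m := by
  refine good_zero ?_ _ ?_
  · intro x
    obtain ⟨r, rfl⟩ := Submodule.Quotient.mk_surjective _ x
    refine ⟨1, fun s hs => ?_⟩
    rw [← Submodule.Quotient.mk_smul, Submodule.Quotient.mk_eq_zero]
    rw [pow_one] at hs
    exact m.mul_mem_right _ hs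
  · rw [← LinearMap.ker_eq_bot, LinearMap.ker_eq_bot']
    intro x hx
    obtain ⟨r, rfl⟩ := Submodule.Quotient.mk_surjective _ x
    have h1 : (Submodule.Quotient.mk (r ^ p) : R ⧸ m) = 0 := hx
    rw [Submodule.Quotient.mk_eq_zero] at h1 ⊢
    exact hm.mem_of_pow_mem p h1

/-- The Frobenius is injective on all local cohomology modules of the glued ring. -/
theorem inj_glue {P1 P2 N Q1 Q2 Q3 J1 J2 : Ideal R}
    (hP : P1 ⊓ P2 = ⊥) (hN : N = P1 ⊔ P2) (hQ : N = Q1 ⊓ (Q2 ⊓ Q3))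
    (h12 : Q1 ≤ J1) (h22 : Q2 ≤ J1) (h13 : Q1 ≤ J2) (h33 : Q3 ≤ J2)
    (hex : ∀ u ∈ J1, ∀ v ∈ J2, ∃ g ∈ Q1, g - u ∈ Q2 ∧ g - v ∈ Q3)
    (gP1 : GoodI p m 4 P1) (gP2 : GoodI p m 4 P2) (gQ1 : GoodI p m 2 Q1) (gQ2 : GoodI p m 2 Q2)
    (gQ3 : GoodI p m 2 Q3) (gJ1 : GoodI p m 1 J1) (gJ2 : GoodI p m 1 J2) (i : ℕ) :
    Inj m i (ModuleCat.ofHom (frobR p (R := R))) := by
  -- the sequence for `T = R ⧸ N`
  have hle1 : N ≤ Q1 := hQ.le.trans inf_le_left
  have hle2 : N ≤ Q2 := hQ.le.trans (inf_le_right.trans inf_le_left)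
  have hle3 : N ≤ Q3 := hQ.le.trans (inf_le_right.trans inf_le_right)
  let fT : (R ⧸ N) →ₗ[R] (R ⧸ Q1) × (R ⧸ Q2) × (R ⧸ Q3) :=
    (Submodule.factor hle1).prod ((Submodule.factor hle2).prod (Submodule.factor hle3))
  let gT : ((R ⧸ Q1) × (R ⧸ Q2) × (R ⧸ Q3)) →ₗ[R] (R ⧸ J1) × (R ⧸ J2) :=
    ((Submodule.factor h12) ∘ₗ LinearMap.fst R _ _ -
      (Submodule.factor h22) ∘ₗ LinearMap.fst R _ _ ∘ₗ LinearMap.snd R _ _).prod
    ((Submodule.factor h13) ∘ₗ LinearMap.fst R _ _ -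
      (Submodule.factor h33) ∘ₗ LinearMap.snd R _ _ ∘ₗ LinearMap.snd R _ _)
  have hgT : ∀ a b c : R, gT (Submodule.Quotient.mk a, Submodule.Quotient.mk b, Submodule.Quotient.mk c) =
      (Submodule.Quotient.mk (a - b), Submodule.Quotient.mk (a - c)) := fun a b c => rfl
  have hfT : ∀ a : R, fT (Submodule.Quotient.mk a) =
      (Submodule.Quotient.mk a, Submodule.Quotient.mk a, Submodule.Quotient.mk a) := fun a => rfl
  have hexT : Function.Exact fT gT := by
    rintro ⟨x, y, z⟩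
    obtain ⟨a, rfl⟩ := Submodule.Quotient.mk_surjective _ x
    obtain ⟨b, rfl⟩ := Submodule.Quotient.mk_surjective _ y
    obtain ⟨c, rfl⟩ := Submodule.Quotient.mk_surjective _ z
    rw [hgT]
    constructor
    · intro h
      obtain ⟨h1, h2⟩ := Prod.ext_iff.1 h
      simp only [Prod.fst_zero, Prod.snd_zero, Submodule.Quotient.mk_eq_zero] at h1 h2
      obtain ⟨g, hg1, hg2, hg3⟩ := hex (b - a) (by rw [← neg_sub]; exact J1.neg_mem h1)
        (c - a) (by rw [← neg_sub]; exact J2.neg_mem h2)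
      refine ⟨Submodule.Quotient.mk (a + g), ?_⟩
      rw [hfT]
      refine Prod.ext ?_ (Prod.ext ?_ ?_)
      · rw [Submodule.Quotient.eq]
        simpa using hg1
      · rw [Submodule.Quotient.eq]
        have : a + g - b = g - (b - a) := by ring
        rw [this]; exact hg2
      · rw [Submodule.Quotient.eq]
        have : a + g - c = g - (c - a) := by ring
        rw [this]; exact hg3
    · rintro ⟨w, hw⟩
      obtain ⟨r, rfl⟩ := Submodule.Quotient.mk_surjective _ w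
      rw [hfT] at hw
      obtain ⟨e1, e2⟩ := Prod.ext_iff.1 hw
      obtain ⟨e2, e3⟩ := Prod.ext_iff.1 e2
      simp only [Submodule.Quotient.eq] at e1 e2 e3
      refine Prod.ext ?_ ?_
      · change Submodule.Quotient.mk _ = (0 : R ⧸ J1)
        rw [Submodule.Quotient.mk_eq_zero]
        have : a - b = (r - b) - (r - a) := by ring
        rw [this]
        exact J1.sub_mem (h22 e2) (h12 e1)
      · change Submodule.Quotient.mk _ = (0 : R ⧸ J2)
        rw [Submodule.Quotient.mk_eq_zero]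
        have : a - c = (r - c) - (r - a) := by ring
        rw [this]
        exact J2.sub_mem (h33 e3) (h13 e1)
  have hfTinj : Function.Injective fT := by
    rw [← LinearMap.ker_eq_bot, LinearMap.ker_eq_bot']
    intro x hx
    obtain ⟨r, rfl⟩ := Submodule.Quotient.mk_surjective _ x
    rw [hfT] at hx
    obtain ⟨e1, e2⟩ := Prod.ext_iff.1 hx
    obtain ⟨e2, e3⟩ := Prod.ext_iff.1 e2
    simp only [Prod.fst_zero, Prod.snd_zero, Submodule.Quotient.mk_eq_zero] at e1 e2 e3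
    rw [Submodule.Quotient.mk_eq_zero, hQ]
    exact ⟨e1, e2, e3⟩
  have hgTsurj : Function.Surjective gT := by
    rintro ⟨x, y⟩
    obtain ⟨a, rfl⟩ := Submodule.Quotient.mk_surjective _ x
    obtain ⟨b, rfl⟩ := Submodule.Quotient.mk_surjective _ y
    refine ⟨(Submodule.Quotient.mk 0, Submodule.Quotient.mk (-a), Submodule.Quotient.mk (-b)), ?_⟩
    rw [hgT]
    simp
  let ST : ShortComplex (ModuleCat.{u} R) :=
    ModuleCat.shortComplexOfCompEqZero fT gT hexT.linearMap_comp_eq_zero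
  have hST : ST.ShortExact := ModuleCat.shortComplex_shortExact _ hexT hfTinj hgTsurj
  have hST' := fShort_shortExact p hST
  let φT : ST ⟶ fShort p ST :=
    { τ₁ := ModuleCat.ofHom (frobQ p N)
      τ₂ := ModuleCat.ofHom (prodF (frobQ p Q1) (prodF (frobQ p Q2) (frobQ p Q3)))
      τ₃ := ModuleCat.ofHom (prodF (frobQ p J1) (frobQ p J2))
      comm₁₂ := by
        refine ModuleCat.hom_ext (LinearMap.ext fun x => ?_)
        obtain ⟨r, rfl⟩ := Submodule.Quotient.mk_surjective _ x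
        rfl
      comm₂₃ := by
        refine ModuleCat.hom_ext (LinearMap.ext fun x => ?_)
        obtain ⟨x, y, z⟩ := x
        obtain ⟨a, rfl⟩ := Submodule.Quotient.mk_surjective _ x
        obtain ⟨b, rfl⟩ := Submodule.Quotient.mk_surjective _ y
        obtain ⟨c, rfl⟩ := Submodule.Quotient.mk_surjective _ z
        change ((Submodule.Quotient.mk (a ^ p - b ^ p) : R ⧸ J1), (Submodule.Quotient.mk (a ^ p - c ^ p) : R ⧸ J2)) =
          ((Submodule.Quotient.mk ((a - b) ^ p) : R ⧸ J1), (Submodule.Quotient.mk ((a - c) ^ p) : R ⧸ J2))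
        rw [sub_pow_expChar, sub_pow_expChar] }
  -- consequences for the middle and right terms
  have vX2 : ∀ i, i ≠ 2 → Van m i ST.X₂ := fun i hi =>
    van_prod (gQ1.van i hi) (van_prod (gQ2.van i hi) (gQ3.van i hi))
  have vX2F : ∀ i, i < 2 → Van m i (fShort p ST).X₂ := fun i hi =>
    van_prodF (gQ1.vanF i hi) (van_prodF (gQ2.vanF i hi) (gQ3.vanF i hi))
  have iX2 : ∀ i, Inj m i φT.τ₂ := fun i => inj_prodF (gQ1.inj i) (inj_prodF (gQ2.inj i) (gQ3.inj i))
  have vX3 : ∀ i, i ≠ 1 → Van m i ST.X₃ := fun i hi => van_prod (gJ1.van i hi) (gJ2.van i hi)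
  have iX3 : ∀ i, Inj m i φT.τ₃ := fun i => inj_prodF (gJ1.inj i) (gJ2.inj i)
  have vT : ∀ i, 4 ≤ i → Van m i (ModuleCat.of R (R ⧸ N)) := by
    intro i hi
    obtain ⟨j, rfl⟩ := Nat.exists_eq_succ_of_ne_zero (show i ≠ 0 by omega)
    exact van₁ hST rfl (vX2 _ (by omega)) (vX3 _ (by omega))
  have iT : ∀ i, Inj m i (ModuleCat.ofHom (frobQ p N)) := by
    intro i
    rcases Nat.eq_zero_or_pos i with h0 | h0
    · subst h0
      have : Van m 0 ST.X₁ := van₁_zero hST (vX2 0 (by omega))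
      exact Van.inj this _
    · obtain ⟨j, rfl⟩ := Nat.exists_eq_succ_of_ne_zero h0.ne'
      by_cases hj : j < 2
      · exact inj₁ hST hST' φT rfl (iX2 _) (iX3 _) (vX2F j hj)
      · have : Van m (j + 1) ST.X₁ := van₁ hST rfl (vX2 _ (by omega)) (vX3 _ (by omega))
        exact Van.inj this _
  -- the sequence for `R`
  have hPN1 : P1 ≤ N := hN ▸ le_sup_left
  have hPN2 : P2 ≤ N := hN ▸ le_sup_right
  let fR : R →ₗ[R] (R ⧸ P1) × (R ⧸ P2) := (Submodule.mkQ P1).prod (Submodule.mkQ P2)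
  let gR : ((R ⧸ P1) × (R ⧸ P2)) →ₗ[R] (R ⧸ N) :=
    (Submodule.factor hPN1) ∘ₗ LinearMap.fst R _ _ - (Submodule.factor hPN2) ∘ₗ LinearMap.snd R _ _
  have hgR : ∀ a b : R, gR (Submodule.Quotient.mk a, Submodule.Quotient.mk b) =
      Submodule.Quotient.mk (a - b) := fun a b => rfl
  have hfR : ∀ a : R, fR a = (Submodule.Quotient.mk a, Submodule.Quotient.mk a) := fun a => rfl
  have hexR : Function.Exact fR gR := by
    rintro ⟨x, y⟩
    obtain ⟨a, rfl⟩ := Submodule.Quotient.mk_surjective _ x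
    obtain ⟨b, rfl⟩ := Submodule.Quotient.mk_surjective _ y
    rw [hgR, Submodule.Quotient.mk_eq_zero]
    constructor
    · intro h
      rw [hN] at h
      obtain ⟨s, hs, t, ht, hst⟩ := Submodule.mem_sup.1 h
      refine ⟨a - s, ?_⟩
      rw [hfR]
      refine Prod.ext ?_ ?_
      · rw [Submodule.Quotient.eq]
        have : a - s - a = -s := by ring
        rw [this]; exact P1.neg_mem hs
      · rw [Submodule.Quotient.eq]
        have : a - s - b = t := by linear_combination -hst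
        rw [this]; exact ht
    · rintro ⟨r, hr⟩
      rw [hfR] at hr
      obtain ⟨e1, e2⟩ := Prod.ext_iff.1 hr
      simp only [Submodule.Quotient.eq] at e1 e2
      have : a - b = (r - b) - (r - a) := by ring
      rw [this]
      exact N.sub_mem (hPN2 e2) (hPN1 e1)
  have hfRinj : Function.Injective fR := by
    rw [← LinearMap.ker_eq_bot, LinearMap.ker_eq_bot']
    intro x hx
    rw [hfR] at hx
    obtain ⟨e1, e2⟩ := Prod.ext_iff.1 hx
    simp only [Prod.fst_zero, Prod.snd_zero, Submodule.Quotient.mk_eq_zero] at e1 e2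
    have : x ∈ P1 ⊓ P2 := ⟨e1, e2⟩
    rw [hP] at this
    exact this
  have hgRsurj : Function.Surjective gR := by
    intro x
    obtain ⟨a, rfl⟩ := Submodule.Quotient.mk_surjective _ x
    refine ⟨(Submodule.Quotient.mk a, Submodule.Quotient.mk 0), ?_⟩
    rw [hgR]
    simp
  let SR : ShortComplex (ModuleCat.{u} R) :=
    ModuleCat.shortComplexOfCompEqZero fR gR hexR.linearMap_comp_eq_zero
  have hSR : SR.ShortExact := ModuleCat.shortComplex_shortExact _ hexR hfRinj hgRsurj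
  have hSR' := fShort_shortExact p hSR
  let φR : SR ⟶ fShort p SR :=
    { τ₁ := ModuleCat.ofHom (frobR p)
      τ₂ := ModuleCat.ofHom (prodF (frobQ p P1) (frobQ p P2))
      τ₃ := ModuleCat.ofHom (frobQ p N)
      comm₁₂ := by
        refine ModuleCat.hom_ext (LinearMap.ext fun x => ?_)
        rfl
      comm₂₃ := by
        refine ModuleCat.hom_ext (LinearMap.ext fun x => ?_)
        obtain ⟨x, y⟩ := x
        obtain ⟨a, rfl⟩ := Submodule.Quotient.mk_surjective _ x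
        obtain ⟨b, rfl⟩ := Submodule.Quotient.mk_surjective _ y
        change (Submodule.Quotient.mk (a ^ p - b ^ p) : R ⧸ N) = (Submodule.Quotient.mk ((a - b) ^ p) : R ⧸ N)
        rw [sub_pow_expChar] }
  have vA : ∀ i, i ≠ 4 → Van m i SR.X₂ := fun i hi => van_prod (gP1.van i hi) (gP2.van i hi)
  have vAF : ∀ i, i < 4 → Van m i (fShort p SR).X₂ := fun i hi =>
    van_prodF (gP1.vanF i hi) (gP2.vanF i hi)
  have iA : ∀ i, Inj m i φR.τ₂ := fun i => inj_prodF (gP1.inj i) (gP2.inj i)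
  rcases Nat.eq_zero_or_pos i with h0 | h0
  · subst h0
    have : Van m 0 SR.X₁ := van₁_zero hSR (vA 0 (by omega))
    exact Van.inj this _
  · obtain ⟨j, rfl⟩ := Nat.exists_eq_succ_of_ne_zero h0.ne'
    by_cases hj : j < 4
    · exact inj₁ hSR hSR' φR rfl (iA _) (iT j) (vAF j hj)
    · have : Van m (j + 1) SR.X₁ := van₁ hSR rfl (vA _ (by omega)) (vT _ (by omega))
      exact Van.inj this _

end Pool.Agent.H34.FInj
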