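import Pool.Agent.H34.FInj.Dim
import Pool.Agent.H34.FInj.Bridge

/-!
# Assembling the counterexample
-/

set_option autoImplicit false

open MvPowerSeries CategoryTheory IsLocalRing

noncomputable section

namespace Pool.Agent.H34.FInj

variable (p : ℕ) [hp : Fact p.Prime]

theorem frobR_injective (k : Type) [Field k] [CharP k p] :
    Function.Injective (frobR (R := GR k) p) := by
  rw [injective_iff_map_eq_zero]
  intro r hr
  have h : (r : GR k) ^ p = 0 := hr
  apply GR_ext
  · have := congrArg (pr1 k) h
    rw [map_pow, map_zero] at this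
    rw [map_zero]
    exact pow_eq_zero_iff hp.out.ne_zero |>.1 this
  · have := congrArg (pr2 k) h
    rw [map_pow, map_zero] at this
    rw [map_zero]
    exact pow_eq_zero_iff hp.out.ne_zero |>.1 this

theorem isFInjective_GR (k : Type) [Field k] [CharP k p] : IsFInjective (GR k) p := fun i =>
  localCohomology_map_injective _ (frobR_injective p k) (inj_GR i)

theorem isEquidimensional_GR (k : Type) [Field k] : IsEquidimensional (GR k) := by
  intro P hP
  rcases minimal_eq k hP with rfl | rfl
  · rw [dim_P1, dim_GR]
  · rw [dim_P2, dim_GR]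

theorem isParameterIdeal_qq (k : Type) [Field k] : IsParameterIdeal (qq k) :=
  ⟨4, gR k, by rw [dim_GR]; rfl, rfl, radical_qq⟩

theorem frobeniusClosure_ne (k : Type) [Field k] [CharP k p] :
    frobeniusClosure p (qq k) ≠ (qq k : Set (GR k)) := by
  intro h
  apply not_mem_qq (k := k)
  rw [← SetLike.mem_coe, ← h]
  refine ⟨1, ?_⟩
  rw [pow_one]
  exact frob_mem

end Pool.Agent.H34.FInj
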