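import Mathlib

/-!
# Power series facts: regular sequences and ideals generated by variables
-/

set_option autoImplicit false

open MvPowerSeries RingTheory.Sequence

noncomputable section

namespace Pool.Agent.H34.FInj

/-- `t` is a nonzerodivisor modulo `I`. -/
def Reg {A : Type*} [CommRing A] (I : Ideal A) (t : A) : Prop := ∀ r, t * r ∈ I → r ∈ I

theorem weakly_iff {A : Type*} [CommRing A] (rs : List A) :
    IsWeaklyRegular A rs ↔ ∀ i (h : i < rs.length), Reg (Ideal.ofList (rs.take i)) rs[i] := by
  rw [isWeaklyRegular_iff]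
  refine forall_congr' fun i => forall_congr' fun h => ?_
  have hI : (Ideal.ofList (rs.take i) • ⊤ : Submodule A A) = Ideal.ofList (rs.take i) := by simp
  rw [hI, isSMulRegular_iff_right_eq_zero_of_smul]
  constructor
  · intro H r hr
    have := H (Submodule.Quotient.mk r) (by
      rw [← Submodule.Quotient.mk_smul, Submodule.Quotient.mk_eq_zero]
      exact hr)
    rwa [Submodule.Quotient.mk_eq_zero] at this
  · intro H x hx
    obtain ⟨r, rfl⟩ := Submodule.Quotient.mk_surjective _ x
    rw [← Submodule.Quotient.mk_smul, Submodule.Quotient.mk_eq_zero] at hx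
    rw [Submodule.Quotient.mk_eq_zero]
    exact H r hx

theorem mem_span_X {σ k : Type*} [Field k] (s : Finset σ) (f : MvPowerSeries σ k) :
    f ∈ Ideal.span ((fun i => (X i : MvPowerSeries σ k)) '' (s : Set σ)) ↔
      ∀ m : σ →₀ ℕ, (∀ i ∈ s, m i = 0) → coeff m f = 0 := by
  classical
  constructor
  · intro hf
    induction hf using Submodule.span_induction with
    | mem x hx =>
      intro m hm
      obtain ⟨i, hi, rfl⟩ := hx
      simp only
      rw [coeff_X, if_neg]
      rintro rfl
      simpa using hm i hi
    | zero => intro m _; simp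
    | add x y _ _ hx hy => intro m hm; rw [map_add, hx m hm, hy m hm, add_zero]
    | smul a x _ hx =>
      intro m hm
      rw [smul_eq_mul, coeff_mul]
      refine Finset.sum_eq_zero fun q hq => ?_
      rw [Finset.HasAntidiagonal.mem_antidiagonal] at hq
      rw [hx q.2, mul_zero]
      intro i hi
      have := hm i hi
      rw [← hq, Finsupp.add_apply] at this
      omega
  · induction s using Finset.induction_on generalizing f with
    | empty =>
      intro h
      have : f = 0 := by
        ext m
        simpa using h m (by simp)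
      rw [this]
      exact Submodule.zero_mem _
    | insert a s ha ih =>
      intro h
      let f1 : MvPowerSeries σ k := fun m => if m a = 0 then coeff m f else 0
      have hf1 : ∀ m, coeff m f1 = if m a = 0 then coeff m f else 0 := fun m => rfl
      have h1 : f1 ∈ Ideal.span ((fun i => (X i : MvPowerSeries σ k)) '' (s : Set σ)) := by
        apply ih
        intro m hm
        rw [hf1]
        split_ifs with h0
        · apply h
          intro i hi
          rcases Finset.mem_insert.1 hi with rfl | hi
          · exact h0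
          · exact hm i hi
        · rfl
      have h2 : (X a : MvPowerSeries σ k) ∣ f - f1 := by
        rw [X_dvd_iff]
        intro m hm
        rw [map_sub, hf1, if_pos hm, sub_self]
      have h3 : f = (f - f1) + f1 := by ring
      rw [h3]
      refine Ideal.add_mem _ ?_ ?_
      · refine Ideal.mem_of_dvd _ h2 (Ideal.subset_span ⟨a, by simp, rfl⟩)
      · refine Ideal.span_mono ?_ h1
        exact Set.image_mono (by simp)

theorem reg_X {σ k : Type*} [Field k] (s : Finset σ) (j : σ) (hj : j ∉ s) :
    Reg (Ideal.span ((fun i => (X i : MvPowerSeries σ k)) '' (s : Set σ))) (X j) := by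
  classical
  intro r hr
  rw [mem_span_X] at hr ⊢
  intro m hm
  have h1 := hr (Finsupp.single j 1 + m) (by
    intro i hi
    rw [Finsupp.add_apply, hm i hi, add_zero, Finsupp.single_apply, if_neg]
    rintro rfl
    exact hj hi)
  rw [X, coeff_add_monomial_mul, one_mul] at h1
  exact h1

/-- change of the element modulo the ideal -/
theorem Reg.congr {A : Type*} [CommRing A] {I : Ideal A} {t t' : A} (h : Reg I t) (ht : t' - t ∈ I) :
    Reg I t' := by
  intro r hr
  apply h
  have : t * r = t' * r - (t' - t) * r := by ring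
  rw [this]
  exact I.sub_mem hr (I.mul_mem_right _ ht)

section four

variable (k : Type) [Field k]

/-- `k[[x, y, z, w]]` -/
abbrev S4 : Type := MvPowerSeries (Fin 4) k

/-- the variable `x` -/
abbrev vx : S4 k := X 0
/-- the variable `y` -/
abbrev vy : S4 k := X 1
/-- the variable `z` -/
abbrev vz : S4 k := X 2
/-- the variable `w` -/
abbrev vw : S4 k := X 3
/-- `z - w ^ 2` -/
abbrev vz' : S4 k := vz k - vw k ^ 2

theorem mem_max {f : S4 k} : f ∈ IsLocalRing.maximalIdeal (S4 k) ↔ constantCoeff f = 0 := by
  rw [IsLocalRing.mem_maximalIdeal, mem_nonunits_iff, isUnit_iff_constantCoeff, isUnit_iff_ne_zero,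
    not_not]

theorem weakly1 : IsWeaklyRegular (S4 k) [vx k, vy k, vz k, vw k] := by
  rw [weakly_iff]
  have key : ∀ (l : List (Fin 4)) (j : Fin 4), j ∉ l →
      Reg (Ideal.ofList (l.map fun i => (X i : S4 k))) (X j) := by
    intro l j hj
    have := reg_X (k := k) l.toFinset j (by simpa using hj)
    convert this using 2
    ext f
    simp
  intro i h
  match i, h with
  | 0, _ => exact key [] 0 (by simp)
  | 1, _ => exact key [0] 1 (by simp)
  | 2, _ => exact key [0, 1] 2 (by decide)
  | 3, _ => exact key [0, 1, 2] 3 (by decide)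

theorem weakly2 : IsWeaklyRegular (S4 k) [vx k, vy k, vw k, vz' k] := by
  have h1 : IsWeaklyRegular (S4 k) [vx k, vy k, vw k, vz k] := by
    refine IsLocalRing.isWeaklyRegular_of_perm_of_subset_maximalIdeal (weakly1 k) ?_ ?_
    · exact ((List.Perm.swap _ _ _).cons _).cons _
    · intro r hr
      rw [mem_max]
      simp only [List.mem_cons, List.not_mem_nil, or_false] at hr
      rcases hr with rfl | rfl | rfl | rfl <;> exact constantCoeff_X _
  rw [weakly_iff] at h1 ⊢
  intro i h
  match i, h with
  | 0, _ => exact h1 0 (by simp)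
  | 1, _ => exact h1 1 (by simp)
  | 2, _ => exact h1 2 (by simp)
  | 3, _ =>
    refine (h1 3 (by simp)).congr ?_
    change (vz k - vw k ^ 2) - vz k ∈ Ideal.ofList [vx k, vy k, vw k]
    have : (vz k - vw k ^ 2) - vz k = (- vw k) * vw k := by ring
    rw [this]
    exact Ideal.mul_mem_left _ _ (Ideal.subset_span (by simp))

theorem reg_perm {l l' : List (S4 k)} (h : IsWeaklyRegular (S4 k) l)
    (hm : ∀ r ∈ l, constantCoeff r = 0) (hp : l.Perm l') (i : ℕ) (hi : i < l'.length) :
    Reg (Ideal.ofList (l'.take i)) l'[i] := by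
  have := IsLocalRing.isWeaklyRegular_of_perm_of_subset_maximalIdeal h hp
    (fun r hr => (mem_max k).2 (hm r hr))
  exact (weakly_iff _).1 this i hi

theorem cc1 : ∀ r ∈ [vx k, vy k, vz k, vw k], constantCoeff r = 0 := by
  intro r hr
  simp only [List.mem_cons, List.not_mem_nil, or_false] at hr
  rcases hr with rfl | rfl | rfl | rfl <;> exact constantCoeff_X _

theorem cc2 : ∀ r ∈ [vx k, vy k, vw k, vz' k], constantCoeff r = 0 := by
  intro r hr
  simp only [List.mem_cons, List.not_mem_nil, or_false] at hr
  rcases hr with rfl | rfl | rfl | rfl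
  · exact constantCoeff_X _
  · exact constantCoeff_X _
  · exact constantCoeff_X _
  · rw [map_sub, map_pow, constantCoeff_X, constantCoeff_X]
    simp

theorem regs1 {l' : List (S4 k)} (hp : [vx k, vy k, vz k, vw k].Perm l') (i : ℕ)
    (hi : i < l'.length) : Reg (Ideal.ofList (l'.take i)) l'[i] :=
  reg_perm k (weakly1 k) (cc1 k) hp i hi

theorem regs2 {l' : List (S4 k)} (hp : [vx k, vy k, vw k, vz' k].Perm l') (i : ℕ)
    (hi : i < l'.length) : Reg (Ideal.ofList (l'.take i)) l'[i] :=
  reg_perm k (weakly2 k) (cc2 k) hp i hi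

theorem r_nil_x : Reg (Ideal.ofList ([] : List (S4 k))) (vx k) :=
  regs1 k (l' := [vx k, vy k, vz k, vw k]) (List.Perm.refl _) 0 (by simp)
theorem r_x_y : Reg (Ideal.ofList [vx k]) (vy k) :=
  regs1 k (l' := [vx k, vy k, vz k, vw k]) (List.Perm.refl _) 1 (by simp)
theorem r_xy_z : Reg (Ideal.ofList [vx k, vy k]) (vz k) :=
  regs1 k (l' := [vx k, vy k, vz k, vw k]) (List.Perm.refl _) 2 (by simp)
theorem r_xyz_w : Reg (Ideal.ofList [vx k, vy k, vz k]) (vw k) :=
  regs1 k (l' := [vx k, vy k, vz k, vw k]) (List.Perm.refl _) 3 (by simp)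
theorem r_yz_x : Reg (Ideal.ofList [vy k, vz k]) (vx k) :=
  regs1 k (l' := [vy k, vz k, vx k, vw k])
    (((List.Perm.swap _ _ _).trans ((List.Perm.swap _ _ _).cons _))) 2 (by simp)
theorem r_xy_z' : Reg (Ideal.ofList [vx k, vy k]) (vz' k) :=
  regs2 k (l' := [vx k, vy k, vz' k, vw k]) (((List.Perm.swap _ _ _).cons _).cons _) 2 (by simp)
theorem r_xyz'_w : Reg (Ideal.ofList [vx k, vy k, vz' k]) (vw k) :=
  regs2 k (l' := [vx k, vy k, vz' k, vw k]) (((List.Perm.swap _ _ _).cons _).cons _) 3 (by simp)
theorem r_xz'_y : Reg (Ideal.ofList [vx k, vz' k]) (vy k) :=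
  regs2 k (l' := [vx k, vz' k, vy k, vw k])
    ((((List.Perm.swap _ _ _).cons _).trans (List.Perm.swap _ _ _)).cons _) 2 (by simp)

/-- the maximal ideal -/
theorem max_eq : IsLocalRing.maximalIdeal (S4 k) = Ideal.ofList [vx k, vy k, vz k, vw k] := by
  ext f
  have h := mem_span_X (k := k) (σ := Fin 4) Finset.univ f
  have h2 : (fun i => (X i : S4 k)) '' ((Finset.univ : Finset (Fin 4)) : Set (Fin 4)) =
      {r | r ∈ [vx k, vy k, vz k, vw k]} := by
    ext r
    simp only [Finset.coe_univ, Set.image_univ, Set.mem_range, Fin.exists_fin_succ]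
    simp [eq_comm]
  rw [h2] at h
  rw [h, mem_max]
  constructor
  · intro h0 m hm
    have : m = 0 := by
      ext i
      exact hm i (Finset.mem_univ _)
    rw [this]
    exact h0
  · intro h0
    exact h0 0 (by simp)

end four

end Pool.Agent.H34.FInj
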