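import Pool.Agent.H34.FInj.Ring

/-!
# The parameter ideal and its Frobenius closure
-/

set_option autoImplicit false

open MvPowerSeries RingTheory.Sequence CategoryTheory

noncomputable section

namespace Pool.Agent.H34.FInj

/-- exponent vectors -/
def E (a b c d : ℕ) : Fin 4 →₀ ℕ :=
  Finsupp.single 0 a + Finsupp.single 1 b + Finsupp.single 2 c + Finsupp.single 3 d

section coeffs

variable {k : Type} [Field k] (f : S4 k) (a b c d : ℕ)

theorem E_x : E (a + 1) b c d = Finsupp.single 0 1 + E a b c d := by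
  unfold E
  rw [Finsupp.single_add]
  abel
theorem E_y : E a (b + 1) c d = Finsupp.single 1 1 + E a b c d := by
  unfold E
  rw [Finsupp.single_add]
  abel
theorem E_z : E a b (c + 1) d = Finsupp.single 2 1 + E a b c d := by
  unfold E
  rw [Finsupp.single_add]
  abel
theorem E_w : E a b c (d + 1) = Finsupp.single 3 1 + E a b c d := by
  unfold E
  rw [Finsupp.single_add]
  abel

theorem cx : coeff (E (a + 1) b c d) (vx k * f) = coeff (E a b c d) f := by
  rw [E_x, vx, X, coeff_add_monomial_mul, one_mul]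
theorem cy : coeff (E a (b + 1) c d) (vy k * f) = coeff (E a b c d) f := by
  rw [E_y, vy, X, coeff_add_monomial_mul, one_mul]
theorem cz : coeff (E a b (c + 1) d) (vz k * f) = coeff (E a b c d) f := by
  rw [E_z, vz, X, coeff_add_monomial_mul, one_mul]
theorem cw : coeff (E a b c (d + 1)) (vw k * f) = coeff (E a b c d) f := by
  rw [E_w, vw, X, coeff_add_monomial_mul, one_mul]

theorem c0 (i : Fin 4) (m : Fin 4 →₀ ℕ) (hm : m i = 0) : coeff m ((X i : S4 k) * f) = 0 := by
  have := (mem_span_X {i} ((X i : S4 k) * f)).1 (by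
    simp only [Finset.coe_singleton, Set.image_singleton]
    exact Ideal.mul_mem_right _ _ (Ideal.mem_span_singleton_self _))
  exact this m (by simpa using hm)

theorem cx0 : coeff (E 0 b c d) (vx k * f) = 0 := c0 f 0 _ (by simp [E])
theorem cy0 : coeff (E a 0 c d) (vy k * f) = 0 := c0 f 1 _ (by simp [E])
theorem cz0 : coeff (E a b 0 d) (vz k * f) = 0 := c0 f 2 _ (by simp [E])
theorem cw0 : coeff (E a b c 0) (vw k * f) = 0 := c0 f 3 _ (by simp [E])

theorem E0 : coeff (E 0 0 0 0) (1 : S4 k) = 1 := by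
  have : E 0 0 0 0 = 0 := by simp [E]
  rw [this]
  simp

/-- the functional -/
def Lam : k := coeff (E 3 0 0 1) f - coeff (E 2 1 0 1) f + coeff (E 1 2 0 1) f - coeff (E 0 3 0 1) f

theorem Lam_add (g : S4 k) : Lam (f + g) = Lam f + Lam g := by
  simp only [Lam, map_add]
  ring

theorem Lam1 : Lam ((vx k + vy k) * f) = 0 := by
  rw [add_mul, Lam_add]
  simp only [Lam, cx, cy, cx0, cy0]
  ring

theorem Lam2 : Lam (vw k ^ 2 * f) = 0 := by
  have : vw k ^ 2 * f = vw k * (vw k * f) := by ring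
  rw [this]
  simp only [Lam, cw, cw0]
  ring

theorem Lam3 : Lam (vz k * f) = 0 := by
  simp only [Lam, cz0]
  ring

theorem Lam4 : Lam (vx k * vy k * f) = coeff (E 0 1 0 1) f - coeff (E 1 0 0 1) f := by
  have : vx k * vy k * f = vx k * (vy k * f) := by ring
  rw [this]
  simp only [Lam, cx, cy, cx0, cy0]
  ring

theorem Lam5 : Lam (vx k * vy k ^ 2 * vw k) = 1 := by
  have : vx k * vy k ^ 2 * vw k = vx k * vy k * (vy k * (vw k * 1)) := by ring
  rw [this, Lam4, cy, cy0, cw, E0, sub_zero]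

theorem coeff_aa1 (hf : f ∈ aa k) : coeff (E 0 1 0 1) f = 0 := by
  obtain ⟨α, β, h⟩ := mem_l2.1 hf.2.1
  have : f = vx k * α + (vz k * β + vw k * (vw k * (-β))) := by
    rw [h]; ring
  rw [this]
  simp only [map_add, cx0, cz0, cw, cw0]
  ring

theorem coeff_aa2 (hf : f ∈ aa k) : coeff (E 1 0 0 1) f = 0 := by
  obtain ⟨α, β, h⟩ := mem_l2.1 hf.2.2
  have : f = vy k * α + vz k * β := by
    rw [h]; ring
  rw [this]
  simp only [map_add, cy0, cz0]
  ring

end coeffs

variable (k : Type) [Field k]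

/-- the generators of the parameter ideal, in `S` -/
def gs : Fin 4 → S4 k := ![vx k + vy k, vw k ^ 2, vz k, vx k * vy k]

/-- the generators of the parameter ideal -/
def gR : Fin 4 → GR k := fun i => dg k (gs k i)

/-- the parameter ideal -/
def qq : Ideal (GR k) := Ideal.span (Set.range (gR k))

theorem dg_mem_qq (i : Fin 4) : dg k (gs k i) ∈ qq k := Ideal.subset_span ⟨i, rfl⟩

variable {k}

/-- `(f, 0)` for `f ∈ 𝔞` -/
def up (f : S4 k) (hf : f ∈ aa k) : GR k := ⟨(f, 0), by rw [mem_GR]; simpa using hf⟩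

theorem pr1_up (f : S4 k) (hf : f ∈ aa k) : pr1 k (up f hf) = f := rfl
theorem pr2_up (f : S4 k) (hf : f ∈ aa k) : pr2 k (up f hf) = 0 := rfl

theorem up_mem_qq {f : S4 k} (hf : f ∈ aa k) (h : up f hf ∈ qq k) :
    ∃ c : Fin 4 → S4 k, (∀ i, c i ∈ aa k) ∧ f = ∑ i, c i * gs k i := by
  rw [qq, Ideal.mem_span_range_iff_exists_fun] at h
  obtain ⟨c, hc⟩ := h
  refine ⟨fun i => pr1 k (c i) - pr2 k (c i), fun i => pr_sub k (c i), ?_⟩
  have h1 := congrArg (pr1 k) hc
  have h2 := congrArg (pr2 k) hc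
  rw [map_sum, pr1_up] at h1
  rw [map_sum, pr2_up] at h2
  simp only [map_mul, gR, pr1_dg, pr2_dg] at h1 h2
  simp only [sub_mul, Finset.sum_sub_distrib, h1, h2, sub_zero]

theorem xy_mem : vx k * vy k ∈ aa k := by
  refine ⟨?_, ?_, ?_⟩
  · exact Ideal.mul_mem_right _ _ (Ideal.subset_span (by simp))
  · exact Ideal.mul_mem_right _ _ (Ideal.subset_span (by simp))
  · exact Ideal.mul_mem_left _ _ (Ideal.subset_span (by simp))

theorem el_mem : vx k * vy k ^ 2 * vw k ∈ aa k := by
  have : vx k * vy k ^ 2 * vw k = (vy k * vw k) * (vx k * vy k) := by ring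
  rw [this]
  exact Ideal.mul_mem_left _ _ xy_mem

/-- the element outside the parameter ideal -/
theorem not_mem_qq : up (vx k * vy k ^ 2 * vw k) el_mem ∉ qq k := by
  intro h
  obtain ⟨c, hc, hs⟩ := up_mem_qq _ h
  have h1 := congrArg Lam hs
  rw [Lam5, Fin.sum_univ_four] at h1
  simp only [gs, Matrix.cons_val] at h1
  rw [Lam_add, Lam_add, Lam_add, mul_comm (c 0), mul_comm (c 1), mul_comm (c 2), mul_comm (c 3),
    Lam1, Lam2, Lam3, Lam4, coeff_aa1 _ (hc 3), coeff_aa2 _ (hc 3)] at h1
  simp at h1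

section char

variable {p : ℕ} [hp : Fact p.Prime] [CharP k p]

instance : CharP (S4 k) p := charP_of_injective_algebraMap (algebraMap k (S4 k)).injective p

instance : CharP (GR k) p :=
  charP_of_injective_ringHom (f := (dg k).comp (algebraMap k (S4 k))) (by
    intro a b h
    have := congrArg (pr1 k) h
    exact (algebraMap k (S4 k)).injective this) p

theorem frob_mem : up (vx k * vy k ^ 2 * vw k) el_mem ^ p ∈
    Ideal.span ((fun y => y ^ p) '' (qq k : Set (GR k))) := by
  obtain ⟨n, hn⟩ : ∃ n, p = n + 2 := ⟨p - 2, by have := hp.out.two_le; omega⟩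
  have h1 : (vx k * vy k) ^ p * vz k * vw k ^ n ∈ aa k := by
    have : (vx k * vy k) ^ p * vz k * vw k ^ n =
        (vx k * vy k) * ((vx k * vy k) ^ (n + 1) * vz k * vw k ^ n) := by
      rw [hn]; ring
    rw [this]
    exact Ideal.mul_mem_right _ _ xy_mem
  have hyz : vy k * vz' k ∈ aa k := by
    refine ⟨?_, ?_, ?_⟩
    · exact Ideal.mul_mem_right _ _ (Ideal.subset_span (by simp))
    · exact Ideal.mul_mem_left _ _ (Ideal.subset_span (by simp))
    · exact Ideal.mul_mem_right _ _ (Ideal.subset_span (by simp))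
  have hxz : vx k * vz k ∈ aa k := by
    refine ⟨?_, ?_, ?_⟩
    · exact Ideal.mul_mem_right _ _ (Ideal.subset_span (by simp))
    · exact Ideal.mul_mem_right _ _ (Ideal.subset_span (by simp))
    · exact Ideal.mul_mem_left _ _ (Ideal.subset_span (by simp))
  have h2 : -vw k ^ n * vy k ^ (n + 1) * (vy k * vz' k) + -vw k ^ n * vx k ^ (n + 1) * (vx k * vz k)
      ∈ aa k := Ideal.add_mem _ (Ideal.mul_mem_left _ _ hyz) (Ideal.mul_mem_left _ _ hxz)
  have key : up (vx k * vy k ^ 2 * vw k) el_mem ^ p =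
      dg k (vx k + vy k) ^ p * up _ h1 + dg k (vx k * vy k) ^ p * up _ h2 := by
    apply GR_ext
    · rw [map_pow, map_add, map_mul, map_mul, map_pow, map_pow, pr1_dg, pr1_dg, pr1_up, pr1_up,
        pr1_up, add_pow_char, hn]
      ring
    · rw [map_pow, map_add, map_mul, map_mul, pr2_up, pr2_up, pr2_up, mul_zero, mul_zero,
        zero_pow hp.out.ne_zero, add_zero]
  rw [key]
  refine Ideal.add_mem _ (Ideal.mul_mem_right _ _ ?_) (Ideal.mul_mem_right _ _ ?_)
  · exact Ideal.subset_span ⟨_, dg_mem_qq k 0, rfl⟩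
  · exact Ideal.subset_span ⟨_, dg_mem_qq k 3, rfl⟩

end char

theorem qq_le_max : qq k ≤ IsLocalRing.maximalIdeal (GR k) := by
  rw [qq, Ideal.span_le]
  rintro _ ⟨i, rfl⟩
  rw [SetLike.mem_coe, mem_maxR, gR, pr1_dg]
  fin_cases i <;> simp [gs]

theorem radical_qq : (qq k).radical = IsLocalRing.maximalIdeal (GR k) := by
  apply le_antisymm
  · rw [← (IsLocalRing.maximalIdeal.isMaximal (GR k)).isPrime.radical]
    exact Ideal.radical_mono qq_le_max
  · rw [Ideal.radical_eq_sInf]
    refine le_sInf ?_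
    rintro Q ⟨hQ, hQp⟩
    have hs : ∀ i, dg k (gs k i) ∈ Q := fun i => hQ (dg_mem_qq k i)
    have hw : dg k (vw k) ∈ Q := by
      have := hs 1
      simp only [gs, Matrix.cons_val, map_pow] at this
      exact hQp.mem_of_pow_mem 2 this
    have hz : dg k (vz k) ∈ Q := hs 2
    have hxy : dg k (vx k + vy k) ∈ Q := hs 0
    have hxy' : dg k (vx k * vy k) ∈ Q := hs 3
    have hx : dg k (vx k) ∈ Q := by
      apply hQp.mem_of_pow_mem 2
      have : dg k (vx k) ^ 2 = dg k (vx k) * dg k (vx k + vy k) - dg k (vx k * vy k) := by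
        rw [← map_pow, ← map_mul, ← map_sub]
        congr 1
        ring
      rw [this]
      exact Ideal.sub_mem _ (Ideal.mul_mem_left _ _ hxy) hxy'
    have hy : dg k (vy k) ∈ Q := by
      have : dg k (vy k) = dg k (vx k + vy k) - dg k (vx k) := by
        rw [← map_sub]
        congr 1
        ring
      rw [this]
      exact Ideal.sub_mem _ hxy hx
    have hS : ∀ f ∈ IsLocalRing.maximalIdeal (S4 k), dg k f ∈ Q := by
      have : IsLocalRing.maximalIdeal (S4 k) ≤ Q.comap (dg k) := by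
        rw [max_eq, Ideal.span_le]
        intro r hr
        simp only [List.mem_cons, List.not_mem_nil, or_false, Set.mem_ofPred_eq] at hr
        rcases hr with rfl | rfl | rfl | rfl
        · exact hx
        · exact hy
        · exact hz
        · exact hw
      exact fun f hf => this hf
    have hPP : (⊥ : Ideal (S4 k)).comap (pr1 k) ≤ Q ∨ (⊥ : Ideal (S4 k)).comap (pr2 k) ≤ Q := by
      rw [← hQp.mul_le]
      refine Ideal.mul_le_inf.trans ?_
      have : (⊥ : Ideal (S4 k)).comap (pr1 k) ⊓ (⊥ : Ideal (S4 k)).comap (pr2 k) = ⊥ := by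
        rw [eq_bot_iff]
        rintro r ⟨h1, h2⟩
        rw [SetLike.mem_coe, Ideal.mem_comap, Ideal.mem_bot] at h1 h2
        rw [Ideal.mem_bot]
        exact GR_ext k h1 h2
      rw [this]
      exact bot_le
    intro r hr
    rcases hPP with h | h
    · have h1 : r = (r - dg k (pr1 k r)) + dg k (pr1 k r) := by ring
      rw [h1]
      refine Q.add_mem (h ?_) (hS _ ?_)
      · rw [Ideal.mem_comap, map_sub, pr1_dg, sub_self]
        exact Submodule.zero_mem _
      · rwa [maxR_eq1] at hr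
    · have h1 : r = (r - dg k (pr2 k r)) + dg k (pr2 k r) := by ring
      rw [h1]
      refine Q.add_mem (h ?_) (hS _ ?_)
      · rw [Ideal.mem_comap, map_sub, pr2_dg, sub_self]
        exact Submodule.zero_mem _
      · rwa [maxR_eq2] at hr

end Pool.Agent.H34.FInj
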