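import Pool.Agent.H34.FInj.PS
import Pool.Agent.H34.FInj.Glue

/-!
# The glued ring
-/

set_option autoImplicit false

open MvPowerSeries RingTheory.Sequence CategoryTheory

noncomputable section

namespace Pool.Agent.H34.FInj

variable (k : Type) [Field k]

/-- `(x, y)` -/
abbrev I1 : Ideal (S4 k) := Ideal.ofList [vx k, vy k]
/-- `(x, z - w²)` -/
abbrev I2 : Ideal (S4 k) := Ideal.ofList [vx k, vz' k]
/-- `(y, z)` -/
abbrev I3 : Ideal (S4 k) := Ideal.ofList [vy k, vz k]
/-- the intersection -/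
def aa : Ideal (S4 k) := I1 k ⊓ (I2 k ⊓ I3 k)

theorem aa_le_max : aa k ≤ IsLocalRing.maximalIdeal (S4 k) := by
  refine inf_le_left.trans ?_
  rw [Ideal.span_le]
  intro r hr
  rw [SetLike.mem_coe, mem_max]
  exact cc1 k r (by simp at hr ⊢; tauto)

/-- The glued ring `{(f, g) : f - g ∈ 𝔞}`. -/
def GR : Subring (S4 k × S4 k) where
  carrier := {f | f.1 - f.2 ∈ aa k}
  zero_mem' := by simp
  one_mem' := by simp
  add_mem' := by
    intro f g hf hg
    simp only [Set.mem_ofPred_eq, Prod.fst_add, Prod.snd_add] at *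
    have : f.1 + g.1 - (f.2 + g.2) = (f.1 - f.2) + (g.1 - g.2) := by ring
    rw [this]
    exact Ideal.add_mem _ hf hg
  neg_mem' := by
    intro f hf
    simp only [Set.mem_ofPred_eq, Prod.fst_neg, Prod.snd_neg] at *
    have : -f.1 - -f.2 = -(f.1 - f.2) := by ring
    rw [this]
    exact neg_mem hf
  mul_mem' := by
    intro f g hf hg
    simp only [Set.mem_ofPred_eq, Prod.fst_mul, Prod.snd_mul] at *
    have : f.1 * g.1 - f.2 * g.2 = f.1 * (g.1 - g.2) + g.2 * (f.1 - f.2) := by ring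
    rw [this]
    exact Ideal.add_mem _ (Ideal.mul_mem_left _ _ hg) (Ideal.mul_mem_left _ _ hf)

theorem mem_GR {f : S4 k × S4 k} : f ∈ GR k ↔ f.1 - f.2 ∈ aa k := Iff.rfl

/-- first projection -/
def pr1 : GR k →+* S4 k := (RingHom.fst _ _).comp (GR k).subtype
/-- second projection -/
def pr2 : GR k →+* S4 k := (RingHom.snd _ _).comp (GR k).subtype
/-- the diagonal -/
def dg : S4 k →+* GR k :=
  RingHom.codRestrict (RingHom.prod (RingHom.id _) (RingHom.id _)) (GR k) (by
    intro f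
    rw [mem_GR]
    simp)

@[simp] theorem pr1_dg (f : S4 k) : pr1 k (dg k f) = f := rfl
@[simp] theorem pr2_dg (f : S4 k) : pr2 k (dg k f) = f := rfl

theorem GR_ext {r s : GR k} (h1 : pr1 k r = pr1 k s) (h2 : pr2 k r = pr2 k s) : r = s :=
  Subtype.ext (Prod.ext h1 h2)

theorem pr_sub (r : GR k) : pr1 k r - pr2 k r ∈ aa k := r.2

theorem pr1_surj : Function.Surjective (pr1 k) := fun f => ⟨dg k f, rfl⟩
theorem pr2_surj : Function.Surjective (pr2 k) := fun f => ⟨dg k f, rfl⟩

theorem cc_eq (r : GR k) : constantCoeff (pr1 k r) = constantCoeff (pr2 k r) := by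
  have := aa_le_max k (pr_sub k r)
  rw [mem_max, map_sub, sub_eq_zero] at this
  exact this

theorem isUnit_iff (r : GR k) : IsUnit r ↔ constantCoeff (pr1 k r) ≠ 0 := by
  rw [← isUnit_iff_ne_zero, ← isUnit_iff_constantCoeff]
  constructor
  · exact fun h => h.map (pr1 k)
  · intro h
    have h2 : IsUnit (pr2 k r) := by
      rw [isUnit_iff_constantCoeff, ← cc_eq, ← isUnit_iff_constantCoeff]
      exact h
    obtain ⟨f, hf⟩ := h.exists_right_inv
    obtain ⟨g, hg⟩ := h2.exists_right_inv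
    refine IsUnit.of_mul_eq_one ⟨(f, g), ?_⟩ ?_
    · rw [mem_GR]
      have : f - g = (-(f * g)) * (pr1 k r - pr2 k r) := by
        linear_combination (-f) * hg + g * hf
      rw [this]
      exact Ideal.mul_mem_left _ _ (pr_sub k r)
    · exact GR_ext k hf hg

instance : IsLocalRing (GR k) := by
  refine IsLocalRing.of_isUnit_or_isUnit_one_sub_self fun r => ?_
  rw [isUnit_iff, isUnit_iff, map_sub, map_one, map_sub, map_one]
  by_cases h : constantCoeff (pr1 k r) = 0
  · right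
    rw [h]
    simp
  · left
    exact h

theorem mem_maxR {r : GR k} : r ∈ IsLocalRing.maximalIdeal (GR k) ↔ constantCoeff (pr1 k r) = 0 := by
  rw [IsLocalRing.mem_maximalIdeal, mem_nonunits_iff, isUnit_iff, not_not]

theorem maxR_eq1 : IsLocalRing.maximalIdeal (GR k) =
    (IsLocalRing.maximalIdeal (S4 k)).comap (pr1 k) := by
  ext r
  rw [mem_maxR, Ideal.mem_comap, mem_max]

theorem maxR_eq2 : IsLocalRing.maximalIdeal (GR k) =
    (IsLocalRing.maximalIdeal (S4 k)).comap (pr2 k) := by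
  ext r
  rw [mem_maxR, Ideal.mem_comap, mem_max, cc_eq]

instance : Algebra (S4 k) (GR k) := (dg k).toAlgebra

theorem smul_def' (f : S4 k) (r : GR k) : f • r = dg k f * r := rfl

/-- the inclusion into the product as a linear map -/
def incl : GR k →ₗ[S4 k] (S4 k × S4 k) where
  toFun r := (r : S4 k × S4 k)
  map_add' _ _ := rfl
  map_smul' _ _ := rfl

instance : IsNoetherian (S4 k) (GR k) :=
  isNoetherian_of_injective (incl k) Subtype.val_injective

instance : IsNoetherianRing (GR k) := isNoetherian_of_tower (S4 k) inferInstance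

theorem dg_finite : (dg k).Finite := by
  change Module.Finite (S4 k) (GR k)
  infer_instance

theorem ofList_eq {A : Type*} [CommRing A] {l l' : List A} {f : A}
    (h : ∀ r, r ∈ l' ↔ r = f ∨ r ∈ l) : Ideal.ofList l' = Ideal.span {f} ⊔ Ideal.ofList l := by
  rw [Ideal.ofList, Ideal.ofList, ← Ideal.span_union]
  congr 1
  ext r
  simp [h]

section good

variable {k} {p : ℕ} [ExpChar (GR k) p]

theorem step_comap {t : ℕ} (π : GR k →+* S4 k) (hdg : ∀ f, π (dg k f) = f) {I I' : Ideal (S4 k)}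
    (f : S4 k) (hf : constantCoeff f = 0) (hreg : Reg I f) (hI' : I' = Ideal.span {f} ⊔ I)
    (h : GoodI p (IsLocalRing.maximalIdeal (GR k)) t (I'.comap π)) :
    GoodI p (IsLocalRing.maximalIdeal (GR k)) (t + 1) (I.comap π) := by
  refine GoodI.step (dg k f) ?_ ?_ ?_ ?_ ?_ h
  · rw [mem_maxR]
    exact hf
  · intro r hr
    rw [Ideal.mem_comap, map_mul, hdg] at hr
    exact hreg _ hr
  · refine Ideal.comap_mono ?_
    rw [hI']
    exact le_sup_right
  · rw [Ideal.mem_comap, hdg, hI']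
    exact Ideal.mem_sup_left (Ideal.mem_span_singleton_self _)
  · intro r hr
    rw [Ideal.mem_comap, hI', Ideal.mem_span_singleton_sup] at hr
    obtain ⟨a, b, hb, hab⟩ := hr
    refine ⟨dg k a, ?_⟩
    rw [Ideal.mem_comap, map_sub, map_mul, hdg, hdg, ← hab]
    have : a * f + b - f * a = b := by ring
    rw [this]
    exact hb

variable (k p) in
theorem good_max : GoodI p (IsLocalRing.maximalIdeal (GR k)) 0 (IsLocalRing.maximalIdeal (GR k)) :=
  goodI_self (IsLocalRing.maximalIdeal.isMaximal _).isPrime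

theorem good_J2 (π : GR k →+* S4 k) (hdg : ∀ f, π (dg k f) = f)
    (hm : IsLocalRing.maximalIdeal (GR k) = (IsLocalRing.maximalIdeal (S4 k)).comap π) :
    GoodI p (IsLocalRing.maximalIdeal (GR k)) 1
      ((Ideal.ofList [vx k, vy k, vz k]).comap π) := by
  refine step_comap π hdg (vw k) (constantCoeff_X _) (r_xyz_w k)
    (I' := IsLocalRing.maximalIdeal (S4 k)) ?_ ?_
  · rw [max_eq]
    exact ofList_eq (by intro r; simp; tauto)
  · rw [← hm]
    exact good_max k p

theorem good_J1 (π : GR k →+* S4 k) (hdg : ∀ f, π (dg k f) = f)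
    (hm : IsLocalRing.maximalIdeal (GR k) = (IsLocalRing.maximalIdeal (S4 k)).comap π) :
    GoodI p (IsLocalRing.maximalIdeal (GR k)) 1
      ((Ideal.ofList [vx k, vy k, vz' k]).comap π) := by
  refine step_comap π hdg (vw k) (constantCoeff_X _) (r_xyz'_w k)
    (I' := IsLocalRing.maximalIdeal (S4 k)) ?_ ?_
  · rw [max_eq, ← ofList_eq (l' := [vx k, vy k, vz' k, vw k]) (by intro r; simp; tauto)]
    apply le_antisymm
    · rw [Ideal.span_le]
      intro r hr
      simp only [List.mem_cons, List.not_mem_nil, or_false, Set.mem_ofPred_eq] at hr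
      rw [SetLike.mem_coe]
      have hw : vw k ∈ Ideal.ofList [vx k, vy k, vz' k, vw k] := Ideal.subset_span (by simp)
      rcases hr with rfl | rfl | rfl | rfl
      · exact Ideal.subset_span (by simp)
      · exact Ideal.subset_span (by simp)
      · have hz : vz' k ∈ Ideal.ofList [vx k, vy k, vz' k, vw k] := Ideal.subset_span (by simp)
        have : vz k = vz' k + vw k * vw k := by ring
        rw [this]
        exact Ideal.add_mem _ hz (Ideal.mul_mem_left _ _ hw)
      · exact hw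
    · rw [Ideal.span_le]
      intro r hr
      simp only [List.mem_cons, List.not_mem_nil, or_false, Set.mem_ofPred_eq] at hr
      rw [SetLike.mem_coe]
      have hw : vw k ∈ Ideal.ofList [vx k, vy k, vz k, vw k] := Ideal.subset_span (by simp)
      rcases hr with rfl | rfl | rfl | rfl
      · exact Ideal.subset_span (by simp)
      · exact Ideal.subset_span (by simp)
      · have hz : vz k ∈ Ideal.ofList [vx k, vy k, vz k, vw k] := Ideal.subset_span (by simp)
        have : vz' k = vz k - vw k * vw k := by ring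
        rw [this]
        exact Ideal.sub_mem _ hz (Ideal.mul_mem_left _ _ hw)
      · exact hw
  · rw [← hm]
    exact good_max k p

theorem good_Q1 (π : GR k →+* S4 k) (hdg : ∀ f, π (dg k f) = f)
    (hm : IsLocalRing.maximalIdeal (GR k) = (IsLocalRing.maximalIdeal (S4 k)).comap π) :
    GoodI p (IsLocalRing.maximalIdeal (GR k)) 2 ((I1 k).comap π) :=
  step_comap π hdg (vz k) (constantCoeff_X _) (r_xy_z k)
    (ofList_eq (by intro r; simp; tauto)) (good_J2 π hdg hm)

theorem good_Q2 (π : GR k →+* S4 k) (hdg : ∀ f, π (dg k f) = f)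
    (hm : IsLocalRing.maximalIdeal (GR k) = (IsLocalRing.maximalIdeal (S4 k)).comap π) :
    GoodI p (IsLocalRing.maximalIdeal (GR k)) 2 ((I2 k).comap π) :=
  step_comap π hdg (vy k) (constantCoeff_X _) (r_xz'_y k)
    (ofList_eq (by intro r; simp; tauto)) (good_J1 π hdg hm)

theorem good_Q3 (π : GR k →+* S4 k) (hdg : ∀ f, π (dg k f) = f)
    (hm : IsLocalRing.maximalIdeal (GR k) = (IsLocalRing.maximalIdeal (S4 k)).comap π) :
    GoodI p (IsLocalRing.maximalIdeal (GR k)) 2 ((I3 k).comap π) :=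
  step_comap π hdg (vx k) (constantCoeff_X _) (r_yz_x k)
    (ofList_eq (by intro r; simp)) (good_J2 π hdg hm)

theorem good_P (π : GR k →+* S4 k) (hdg : ∀ f, π (dg k f) = f)
    (hm : IsLocalRing.maximalIdeal (GR k) = (IsLocalRing.maximalIdeal (S4 k)).comap π) :
    GoodI p (IsLocalRing.maximalIdeal (GR k)) 4 ((⊥ : Ideal (S4 k)).comap π) := by
  have h1 : GoodI p (IsLocalRing.maximalIdeal (GR k)) 3 ((Ideal.ofList [vx k]).comap π) :=
    step_comap π hdg (vy k) (constantCoeff_X _) (r_x_y k)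
      (ofList_eq (by intro r; simp; tauto)) (good_Q1 π hdg hm)
  rw [← Ideal.ofList_nil]
  exact step_comap π hdg (vx k) (constantCoeff_X _) (r_nil_x k)
      (ofList_eq (by intro r; simp)) h1

theorem inf_P : (⊥ : Ideal (S4 k)).comap (pr1 k) ⊓ (⊥ : Ideal (S4 k)).comap (pr2 k) = ⊥ := by
  rw [eq_bot_iff]
  rintro r ⟨h1, h2⟩
  rw [SetLike.mem_coe, Ideal.mem_comap, Ideal.mem_bot] at h1 h2
  rw [Ideal.mem_bot]
  exact GR_ext k h1 h2

theorem sup_P : (aa k).comap (pr1 k) =
    (⊥ : Ideal (S4 k)).comap (pr1 k) ⊔ (⊥ : Ideal (S4 k)).comap (pr2 k) := by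
  apply le_antisymm
  · intro r hr
    rw [Ideal.mem_comap] at hr
    have h2 : pr2 k r ∈ aa k := by
      have : pr2 k r = pr1 k r - (pr1 k r - pr2 k r) := by ring
      rw [this]
      exact Ideal.sub_mem _ hr (pr_sub k r)
    rw [Submodule.mem_sup]
    refine ⟨⟨(0, pr2 k r), ?_⟩, ?_, ⟨(pr1 k r, 0), ?_⟩, ?_, ?_⟩
    · rw [mem_GR]
      simpa using h2
    · rw [Ideal.mem_comap, Ideal.mem_bot]
      rfl
    · rw [mem_GR]
      simpa using hr
    · rw [Ideal.mem_comap, Ideal.mem_bot]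
      rfl
    · apply GR_ext
      · change 0 + pr1 k r = pr1 k r
        rw [zero_add]
      · change pr2 k r + 0 = pr2 k r
        rw [add_zero]
  · rw [sup_le_iff]
    constructor
    · exact Ideal.comap_mono bot_le
    · intro r hr
      rw [Ideal.mem_comap, Ideal.mem_bot] at hr
      rw [Ideal.mem_comap]
      have := pr_sub k r
      rwa [hr, sub_zero] at this

theorem mem_l2 {f a b : S4 k} : f ∈ Ideal.ofList [a, b] ↔ ∃ α β, f = α * a + β * b := by
  rw [Ideal.ofList_cons, Ideal.ofList_singleton, Ideal.mem_span_singleton_sup]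
  constructor
  · rintro ⟨α, c, hc, rfl⟩
    obtain ⟨β, rfl⟩ := Ideal.mem_span_singleton'.1 hc
    exact ⟨α, β, rfl⟩
  · rintro ⟨α, β, rfl⟩
    exact ⟨α, β * b, Ideal.mem_span_singleton'.2 ⟨β, rfl⟩, rfl⟩

theorem mem_l3 {f a b c : S4 k} : f ∈ Ideal.ofList [a, b, c] ↔
    ∃ α β γ, f = α * a + β * b + γ * c := by
  rw [Ideal.ofList_cons, Ideal.mem_span_singleton_sup]
  constructor
  · rintro ⟨α, d, hd, rfl⟩
    obtain ⟨β, γ, rfl⟩ := mem_l2.1 hd
    exact ⟨α, β, γ, by ring⟩
  · rintro ⟨α, β, γ, rfl⟩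
    exact ⟨α, _, mem_l2.2 ⟨β, γ, rfl⟩, by ring⟩

theorem inj_GR (i : ℕ) : Inj (IsLocalRing.maximalIdeal (GR k)) i
    (ModuleCat.ofHom (frobR p (R := GR k))) := by
  refine inj_glue (Q1 := (I1 k).comap (pr1 k)) (Q2 := (I2 k).comap (pr1 k))
    (Q3 := (I3 k).comap (pr1 k)) (J1 := (Ideal.ofList [vx k, vy k, vz' k]).comap (pr1 k))
    (J2 := (Ideal.ofList [vx k, vy k, vz k]).comap (pr1 k)) inf_P sup_P ?_ ?_ ?_ ?_ ?_ ?_
    (good_P (pr1 k) (pr1_dg k) (maxR_eq1 k)) (good_P (pr2 k) (pr2_dg k) (maxR_eq2 k))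
    (good_Q1 (pr1 k) (pr1_dg k) (maxR_eq1 k)) (good_Q2 (pr1 k) (pr1_dg k) (maxR_eq1 k))
    (good_Q3 (pr1 k) (pr1_dg k) (maxR_eq1 k)) (good_J1 (pr1 k) (pr1_dg k) (maxR_eq1 k))
    (good_J2 (pr1 k) (pr1_dg k) (maxR_eq1 k)) i
  · rw [aa, Ideal.comap_inf, Ideal.comap_inf]
  · exact Ideal.comap_mono (Ideal.span_mono (by intro r; simp; tauto))
  · exact Ideal.comap_mono (Ideal.span_mono (by intro r; simp; tauto))
  · exact Ideal.comap_mono (Ideal.span_mono (by intro r; simp; tauto))
  · exact Ideal.comap_mono (Ideal.span_mono (by intro r; simp; tauto))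
  · intro u hu v hv
    rw [Ideal.mem_comap, mem_l3] at hu hv
    obtain ⟨u1, u2, u3, hu⟩ := hu
    obtain ⟨v1, v2, v3, hv⟩ := hv
    refine ⟨dg k (v1 * vx k + u2 * vy k), ?_, ?_, ?_⟩
    · rw [Ideal.mem_comap, pr1_dg, mem_l2]
      exact ⟨_, _, rfl⟩
    · rw [Ideal.mem_comap, map_sub, pr1_dg, mem_l2, hu]
      exact ⟨v1 - u1, -u3, by ring⟩
    · rw [Ideal.mem_comap, map_sub, pr1_dg, mem_l2, hv]
      exact ⟨u2 - v2, -v3, by ring⟩

end good

end Pool.Agent.H34.FInj
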